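import Pool.Agent.Lib.MP_95bae3_an.FC.Irreg

set_option autoImplicit false

open Pointwise

namespace Pool.Agent.Lib.MP_95bae3_an.FC

variable {G : Type} [Group G]

/-- weight of a letter -/
noncomputable def funW (e : ℕ) : ℝ := 1 / ((e.unpair.1 : ℝ) + 1)

/-- sign of a letter -/
noncomputable def funS (e : ℕ) : ℝ := if e.unpair.2.unpair.1 = 0 then 1 else -1

/-- height of a word -/
noncomputable def funTh (y : List ℕ) : ℝ := max 0 (1 - (y.map funW).sum)

/-- value of a word -/
noncomputable def funVal : List ℕ → ℝ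
  | [] => 0
  | e :: y => funS e * funTh (e :: y)

open Classical in
/-- a word for `x`, if there is one -/
noncomputable def funY (a : ℕ → G) (x : G) : List ℕ :=
  if h : ∃ y : List ℕ, y.Nodup ∧ pw a y = x then h.choose else []

lemma funW_pos (e : ℕ) : 0 < funW e := by
  unfold funW
  positivity

lemma fun_abs_S (e : ℕ) : |funS e| = 1 := by
  unfold funS
  split_ifs <;> simp

lemma funTh_nonneg (y : List ℕ) : 0 ≤ funTh y := le_max_left _ _

lemma funTh_le (y : List ℕ) : funTh y ≤ 1 := by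
  have : 0 ≤ (y.map funW).sum := List.sum_nonneg fun t ht => by
    obtain ⟨e, -, rfl⟩ := List.mem_map.1 ht
    exact (funW_pos e).le
  exact max_le zero_le_one (by linarith)

lemma fun_abs_val (y : List ℕ) : |funVal y| ≤ funTh y := by
  cases y with
  | nil => simpa [funVal] using funTh_nonneg []
  | cons e y => rw [funVal, abs_mul, fun_abs_S, one_mul, abs_of_nonneg (funTh_nonneg _)]

lemma fun_abs_val_le (y : List ℕ) : |funVal y| ≤ 1 := (fun_abs_val y).trans (funTh_le y)

lemma funTh_ne {y : List ℕ} (h : funVal y ≠ 0) : funTh y ≠ 0 := fun e =>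
  h (abs_nonpos_iff.1 ((fun_abs_val y).trans e.le))

lemma funTh_snoc (y : List ℕ) (e : ℕ) :
    funTh (y ++ [e]) ≤ funTh y ∧ funTh y - funW e ≤ funTh (y ++ [e]) := by
  have h := funW_pos e
  have e1 : ((y ++ [e]).map funW).sum = (y.map funW).sum + funW e := by simp
  unfold funTh
  rw [e1]
  constructor
  · exact max_le_max le_rfl (by linarith)
  · rcases le_total 0 (1 - (y.map funW).sum) with h1 | h1
    · rw [max_eq_right h1]
      exact le_max_of_le_right (by linarith)
    · rw [max_eq_left h1]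
      exact le_max_of_le_left (by linarith)

lemma funVal_snoc {y : List ℕ} (h : y ≠ []) (e : ℕ) :
    |funVal (y ++ [e]) - funVal y| ≤ funW e := by
  obtain ⟨i, z, rfl⟩ := List.exists_cons_of_ne_nil h
  have h1 := funTh_snoc (i :: z) e
  rw [List.cons_append] at h1 ⊢
  rw [funVal, funVal, ← mul_sub, abs_mul, fun_abs_S, one_mul, abs_le]
  have := funW_pos e
  constructor <;> linarith [h1.1, h1.2]

lemma funY_spec {a : ℕ → G} {x : G} (h : ∃ y : List ℕ, y.Nodup ∧ pw a y = x) :
    (funY a x).Nodup ∧ pw a (funY a x) = x := by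
  rw [funY, dif_pos h]
  exact h.choose_spec

lemma funY_of_ne {a : ℕ → G} {x : G} (h : funVal (funY a x) ≠ 0) :
    (funY a x).Nodup ∧ pw a (funY a x) = x := by
  refine funY_spec (by_contra fun h1 => h ?_)
  rw [funY, dif_neg h1, funVal]

lemma funY_pw {a : ℕ → G} (L : Letters a) {y : List ℕ} (hy : y.Nodup) :
    funY a (pw a y) = y :=
  word_inj L (funY_spec ⟨y, hy, rfl⟩).1 hy (funY_spec ⟨y, hy, rfl⟩).2

lemma fun_count {A : Finset ℕ} {T : ℕ} (hT : 0 < T) (hA : ∀ e ∈ A, funW e = 1 / (T : ℝ))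
    {y : List ℕ} (hy : y.Nodup) (h : funTh y ≠ 0) : (A.filter (· ∈ y)).card ≤ T := by
  have h1 : (y.map funW).sum < 1 := by
    by_contra h2
    exact h (max_eq_left (by linarith [not_lt.1 h2]))
  have h2 : ∑ e ∈ A.filter (· ∈ y), funW e ≤ ∑ e ∈ y.toFinset, funW e :=
    Finset.sum_le_sum_of_subset_of_nonneg
      (fun e he => List.mem_toFinset.2 (Finset.mem_filter.1 he).2) fun e _ _ => (funW_pos e).le
  have h3 := Finset.card_nsmul_le_sum (A.filter (· ∈ y)) funW (1 / (T : ℝ))
    fun e he => (hA e (Finset.mem_filter.1 he).1).ge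
  rw [List.sum_toFinset _ hy] at h2
  rw [nsmul_eq_mul, mul_one_div] at h3
  have h4 : (0 : ℝ) < T := by exact_mod_cast hT
  have h5 := (div_lt_one h4).1 ((h3.trans h2).trans_lt h1)
  exact_mod_cast h5.le

lemma fun_avg {A B : Finset ℕ} {T : ℕ} (hT : 0 < T) (hA : A.card = T ^ 2) (hB : B ⊆ A)
    (hc : B.card ≤ T + 2) (g : ℕ → ℝ) (c : ℝ) (h1 : ∀ e ∈ B, |g e - c| ≤ 2)
    (h2 : ∀ e ∈ A, e ∉ B → |g e - c| ≤ 1 / (T : ℝ)) :
    |(∑ e ∈ A, g e) / A.card - c| ≤ 7 / (T : ℝ) := by
  have h3 : (1 : ℝ) ≤ T := by exact_mod_cast hT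
  have h0 : (0 : ℝ) < T := by linarith
  have h4 : (A.card : ℝ) = (T : ℝ) ^ 2 := by exact_mod_cast hA
  have h5 : (B.card : ℝ) ≤ T + 2 := by exact_mod_cast hc
  have h6 : (∑ e ∈ A, g e) / A.card - c = (∑ e ∈ A, (g e - c)) / (T : ℝ) ^ 2 := by
    rw [Finset.sum_sub_distrib, Finset.sum_const, nsmul_eq_mul, h4]
    field_simp
  have h7 : ∑ e ∈ A \ B, |g e - c| ≤ T := by
    refine (Finset.sum_le_card_nsmul _ _ (1 / (T : ℝ)) fun e he =>
      h2 e (Finset.mem_sdiff.1 he).1 (Finset.mem_sdiff.1 he).2).trans ?_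
    have : ((A \ B).card : ℝ) ≤ (T : ℝ) ^ 2 := by
      rw [← h4]
      exact_mod_cast Finset.card_le_card Finset.sdiff_subset
    rw [nsmul_eq_mul, mul_one_div, div_le_iff₀ (by linarith)]
    nlinarith
  have h8 : ∑ e ∈ B, |g e - c| ≤ 6 * T := by
    refine (Finset.sum_le_card_nsmul _ _ 2 h1).trans ?_
    rw [nsmul_eq_mul]
    linarith
  have h9 : |∑ e ∈ A, (g e - c)| ≤ ∑ e ∈ A, |g e - c| := Finset.abs_sum_le_sum_abs _ _
  rw [← Finset.sum_sdiff hB (f := fun e => |g e - c|)] at h9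
  rw [h6, abs_div, abs_of_pos (by positivity : (0 : ℝ) < (T : ℝ) ^ 2),
    div_le_div_iff₀ (by positivity) h0]
  nlinarith [mul_le_mul_of_nonneg_right (h9.trans (add_le_add h7 h8)) h0.le]

lemma fun_two (y z : List ℕ) : |funVal y - funVal z| ≤ 2 := by
  have h1 := abs_le.1 (fun_abs_val_le y)
  have h2 := abs_le.1 (fun_abs_val_le z)
  rw [abs_le]
  constructor <;> linarith [h1.1, h1.2, h2.1, h2.2]

lemma fun_alph (n : ℕ) {s : ℝ} (hs : s = 1 ∨ s = -1) : ∃ A : Finset ℕ, A.card = (n + 1) ^ 2 ∧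
    (∀ e ∈ A, funW e = 1 / ((n + 1 : ℕ) : ℝ)) ∧ ∀ e ∈ A, funS e = s := by
  have key : ∀ σ : ℕ, ((Finset.range ((n + 1) ^ 2)).image
      fun j => Nat.pair n (Nat.pair σ j)).card = (n + 1) ^ 2 := fun σ => by
    rw [Finset.card_image_of_injective _ fun i j h =>
      (Nat.pair_eq_pair.1 (Nat.pair_eq_pair.1 h).2).2, Finset.card_range]
  rcases hs with rfl | rfl
  · refine ⟨_, key 0, fun e he => ?_, fun e he => ?_⟩ <;>
      obtain ⟨j, -, rfl⟩ := Finset.mem_image.1 he <;> simp [funW, funS]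
  · refine ⟨_, key 1, fun e he => ?_, fun e he => ?_⟩ <;>
      obtain ⟨j, -, rfl⟩ := Finset.mem_image.1 he <;> simp [funW, funS]

open Classical in
/-- averages of right translates of `f` converge uniformly to `f + s` times the indicator of `1` -/
theorem exists_fun {a : ℕ → G} (L : Letters a) :
    ∃ f : G → ℝ, (∀ x, |f x| ≤ 1) ∧ ∀ s : ℝ, s = 1 ∨ s = -1 → ∀ ε : ℝ, 0 < ε →
      ∃ A : Finset ℕ, A.Nonempty ∧ ∀ x : G,
        |(∑ e ∈ A, f (x * a e)) / A.card - (f x + if x = 1 then s else 0)| ≤ ε := by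
  refine ⟨fun x => funVal (funY a x), fun x => fun_abs_val_le _, fun s hs ε hε => ?_⟩
  obtain ⟨n, hn⟩ := exists_nat_ge (7 / ε)
  obtain ⟨A, hA, hW, hS⟩ := fun_alph n hs
  have hT : 0 < n + 1 := n.succ_pos
  have hε' : 7 / ((n + 1 : ℕ) : ℝ) ≤ ε := by
    rw [div_le_iff₀ hε] at hn
    rw [div_le_iff₀ (by positivity)]
    push_cast
    nlinarith
  refine ⟨A, Finset.card_pos.1 (by rw [hA]; positivity), fun x => le_trans ?_ hε'⟩
  beta_reduce
  by_cases hx : x = 1
  · subst hx
    refine fun_avg (B := ∅) hT hA (Finset.empty_subset _) (by simp) _ _ (by simp) fun e he _ => ?_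
    have e0 : funY a (1 : G) = [] := funY_pw L (y := []) List.nodup_nil
    have e1 : funY a (1 * a e) = [e] := by
      simpa using funY_pw L (y := [e]) (List.nodup_singleton e)
    have e2 := funTh_snoc [] e
    have e3 : funTh [] = 1 := by simp [funTh]
    have e4 : |s| = 1 := by rw [← hS e he, fun_abs_S]
    rw [List.nil_append, e3, hW e he] at e2
    rw [e0, e1, if_pos rfl, funVal, funVal, hS e he, zero_add, ← mul_sub_one, abs_mul, e4, one_mul,
      abs_le]
    have := funW_pos e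
    rw [hW e he] at this
    constructor <;> linarith [e2.1, e2.2]
  simp only [if_neg hx, add_zero]
  by_cases h0 : ∃ y : List ℕ, y.Nodup ∧ pw a y = x ∧ funTh y ≠ 0
  · obtain ⟨y, hy, rfl, h1⟩ := h0
    refine fun_avg (B := A.filter (· ∈ y)) hT hA (Finset.filter_subset _ _)
      ((fun_count hT hW hy h1).trans (by omega)) _ _ (fun e _ => fun_two _ _) fun e he h2 => ?_
    have h3 : e ∉ y := fun h => h2 (Finset.mem_filter.2 ⟨he, h⟩)
    have h4 : (y ++ [e]).Nodup := by
      rw [List.nodup_append_comm]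
      exact List.nodup_cons.2 ⟨h3, hy⟩
    have h5 : funY a (pw a y * a e) = y ++ [e] := by simpa using funY_pw L h4
    rw [h5, funY_pw L hy, ← hW e he]
    exact funVal_snoc (fun h => hx (by rw [h, pw_nil])) e
  · have h1 : funVal (funY a x) = 0 := by_contra fun h =>
      h0 ⟨_, (funY_of_ne h).1, (funY_of_ne h).2, funTh_ne h⟩
    refine fun_avg (B := A.filter fun e => funVal (funY a (x * a e)) ≠ 0) hT hA
      (Finset.filter_subset _ _) ?_ _ _ (fun e _ => fun_two _ _) fun e he h2 => ?_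
    · refine irreg L A (n + 1) x _ (Finset.filter_subset _ _) (fun e => funY a (x * a e))
        (fun e he => (funY_of_ne (Finset.mem_filter.1 he).2).1)
        (fun e he => (funY_of_ne (Finset.mem_filter.1 he).2).2) (fun e he p hp => ?_)
        fun e he => fun_count hT hW (funY_of_ne (Finset.mem_filter.1 he).2).1
          (funTh_ne (Finset.mem_filter.1 he).2)
      have h3 := (Finset.mem_filter.1 he).2
      obtain ⟨h4, h5⟩ := funY_of_ne h3
      have h6 := funTh_ne h3
      have hp' : funY a (x * a e) = p ++ [e] := hp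
      rw [hp'] at h4 h5 h6
      refine h0 ⟨p, h4.of_append_left, by simpa using h5, fun h7 => h6 ?_⟩
      exact le_antisymm ((funTh_snoc p e).1.trans h7.le) (funTh_nonneg _)
    · have h3 : funVal (funY a (x * a e)) = 0 := by_contra fun h =>
        h2 (Finset.mem_filter.2 ⟨he, h⟩)
      rw [h3, h1, sub_zero, abs_zero]
      positivity

end Pool.Agent.Lib.MP_95bae3_an.FC
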