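import Pool.Agent.Lib.MP_95bae3_an.FC.Defs

set_option autoImplicit false

open Pointwise

namespace Pool.Agent.Lib.MP_95bae3_an.FC

variable {G : Type} [Group G]

theorem Lett_avoid (C : Subgroup G) [C.FiniteIndex] {P : Set (G × Subgroup G)} (hP : P.Finite)
    (h : ∀ p ∈ P, ¬ p.2.FiniteIndex) : ∃ x ∈ C, ∀ p ∈ P, p.1⁻¹ * x ∉ p.2 := by
  classical
  by_contra hcon
  push Not at hcon
  have : Fintype (G ⧸ C) := Fintype.ofFinite _
  obtain ⟨k, hk, hk'⟩ := Subgroup.exists_finiteIndex_of_leftCoset_cover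
    (s := (Finset.univ : Finset (G ⧸ C)) ×ˢ hP.toFinset) (H := fun i => i.2.2)
    (g := fun i => i.1.out * i.2.1) (by
      refine Set.eq_univ_of_forall fun y => ?_
      have h1 : (QuotientGroup.mk y : G ⧸ C).out⁻¹ * y ∈ C :=
        QuotientGroup.eq.1 (QuotientGroup.out_eq' _)
      obtain ⟨p, hp, hp'⟩ := hcon _ h1
      refine Set.mem_iUnion₂.2 ⟨(QuotientGroup.mk y, p), by simpa using hp, ?_⟩
      rw [mem_leftCoset_iff, mul_inv_rev, mul_assoc]
      exact hp')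
  exact h k.2 (by simpa using hk) hk'

/-- one new letter -/
theorem exists_letter (h : ¬ (fc G).FiniteIndex) {B : Set G} (hB : B.Finite) :
    ∃ x : G, (∀ b ∈ B, x⁻¹ * b ∉ fc G) ∧
      ∀ w ∈ B, ∀ c ∈ B, x * w * x⁻¹ = c → w ∈ fc G ∧ c = w := by
  classical
  have hF : (B ∩ (fc G : Set G)).Finite := hB.inter_of_left _
  have : (⨅ w ∈ hF.toFinset, Subgroup.centralizer ({w} : Set G)).FiniteIndex :=
    Subgroup.finiteIndex_iInf' _ fun w hw => mem_fc.1 (hF.mem_toFinset.1 hw).2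
  let r : G × G → G := fun p => if hp : ∃ g : G, g * p.1 * g⁻¹ = p.2 then hp.choose else 1
  obtain ⟨x, hx, hx'⟩ := Lett_avoid (⨅ w ∈ hF.toFinset, Subgroup.centralizer ({w} : Set G))
    (P := (fun b => (b, fc G)) '' B ∪
      (fun p => (r p, Subgroup.centralizer {p.1})) '' ((B \ (fc G : Set G)) ×ˢ B))
    ((hB.image _).union (((hB.sdiff).prod hB).image _)) (by
      rintro _ (⟨b, -, rfl⟩ | ⟨p, hp, rfl⟩)
      · exact h
      · exact hp.1.2)
  refine ⟨x, fun b hb hxb => hx' (b, fc G) (Or.inl ⟨b, hb, rfl⟩) ?_, fun w hw c hc e => ?_⟩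
  · simpa using (fc G).inv_mem hxb
  · by_cases hwf : w ∈ fc G
    · refine ⟨hwf, ?_⟩
      have h1 : x ∈ Subgroup.centralizer ({w} : Set G) :=
        Subgroup.mem_iInf.1 (Subgroup.mem_iInf.1 hx w) (hF.mem_toFinset.2 ⟨hw, hwf⟩)
      rw [← e, Subgroup.mem_centralizer_singleton_iff.1 h1, mul_inv_cancel_right]
    · exfalso
      refine hx' (r (w, c), Subgroup.centralizer {w}) (Or.inr ⟨(w, c), ⟨⟨hw, hwf⟩, hc⟩, rfl⟩) ?_
      have hp : ∃ g : G, g * w * g⁻¹ = c := ⟨x, e⟩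
      have h1 : r (w, c) * w * (r (w, c))⁻¹ = c := by
        simp only [r, dif_pos hp]
        exact hp.choose_spec
      refine Subgroup.mem_centralizer_singleton_iff.2 ?_
      generalize r (w, c) = g at h1
      calc g⁻¹ * x * w = g⁻¹ * (x * w * x⁻¹) * x := by group
        _ = g⁻¹ * (g * w * g⁻¹) * x := by rw [e, h1]
        _ = w * (g⁻¹ * x) := by group

theorem exists_letters (h : ¬ (fc G).FiniteIndex) : ∃ a : ℕ → G, Letters a := by
  have h5 : ∀ S : {S : Set G // S.Finite}, (S.1 ^ 5).Finite := fun S => by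
    rw [pow_succ, pow_succ, pow_succ, pow_two]
    exact (((S.2.mul S.2).mul S.2).mul S.2).mul S.2
  choose F hF1 hF2 using fun S : {S : Set G // S.Finite} => exists_letter h (h5 S)
  let S : ℕ → {S : Set G // S.Finite} := fun k => Nat.rec ⟨{1}, Set.finite_singleton _⟩
    (fun _ T => ⟨T.1 ∪ T.1 * {F T, (F T)⁻¹} * T.1,
      T.2.union ((T.2.mul (Set.toFinite _)).mul T.2)⟩) k
  have hS : ∀ k, (S (k + 1)).1 = (S k).1 ∪ (S k).1 * {F (S k), (F (S k))⁻¹} * (S k).1 :=
    fun _ => rfl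
  have hW : ∀ k, W (fun k => F (S k)) k ⊆ (S k).1 := by
    intro k
    induction k with
    | zero =>
      rintro g ⟨y, hy, hg⟩
      obtain rfl : y = [] := List.eq_nil_iff_forall_not_mem.2 fun i hi =>
        Nat.not_lt_zero _ (hy.2 i hi)
      show g ∈ ({1} : Set G)
      simpa using hg
    | succ k ih =>
      rintro g ⟨y, hy, hg⟩
      rw [hS]
      by_cases hk : k ∈ y
      · obtain ⟨p, q, rfl, hp, hq, -⟩ := hy.split hk
        right
        rcases hg with rfl | rfl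
        · rw [pw_append, pw_cons, ← mul_assoc]
          exact Set.mul_mem_mul (Set.mul_mem_mul (ih (W_pw hp)) (Or.inl rfl)) (ih (W_pw hq))
        · rw [pw_append, pw_cons, mul_inv_rev, mul_inv_rev]
          exact Set.mul_mem_mul (Set.mul_mem_mul (ih (W_inv hq)) (Or.inr rfl)) (ih (W_inv hp))
      · exact Or.inl (ih ⟨y, hy.drop hk, hg⟩)
  have hW5 : ∀ k, W (fun k => F (S k)) k ^ 5 ⊆ (S k).1 ^ 5 := fun k =>
    Set.pow_subset_pow_left (hW k)
  exact ⟨fun k => F (S k), fun k b hb => hF1 (S k) b (hW5 k hb),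
    fun k w hw c hc => hF2 (S k) w (hW5 k hw) c (hW5 k hc)⟩

end Pool.Agent.Lib.MP_95bae3_an.FC
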