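import Pool.Agent.Lib.MP_95bae3_an.FC.Defs
import Pool.Agent.Lib.MP_95bae3_an.OrbitK

set_option autoImplicit false

open Pointwise

namespace Pool.Agent.Lib.MP_95bae3_an.FC

variable {G : Type} [Group G]

section NegAux

open BoundedContinuousFunction

variable {𝕜 : Type} [RCLike 𝕜] [TopologicalSpace G] [DiscreteTopology G]

/-- the average of finitely many translates, inside the orbit space -/
noncomputable def negAvg (F : G →ᵇ 𝕜) (a : ℕ → G) (A : Finset ℕ) : K.orb F :=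
  ((A.card : 𝕜))⁻¹ • ∑ e ∈ A, K.rho F (a e) ⟨F, K.self_mem_orb F⟩

lemma negAvg_apply (F : G →ᵇ 𝕜) (a : ℕ → G) (A : Finset ℕ) (x : G) :
    (negAvg F a A).1 x = ((A.card : 𝕜))⁻¹ * ∑ e ∈ A, F (x * a e) := by
  unfold negAvg
  rw [Submodule.coe_smul, Submodule.coe_sum, BoundedContinuousFunction.smul_apply,
    BoundedContinuousFunction.sum_apply, smul_eq_mul]
  rfl

lemma neg_mem (F u : G →ᵇ 𝕜) (a : ℕ → G)
    (h : ∀ ε : ℝ, 0 < ε → ∃ A : Finset ℕ, A.Nonempty ∧ ‖(negAvg F a A).1 - u‖ ≤ ε) :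
    u ∈ K.orb F := by
  have hc : IsClosed ((K.orb F : Submodule 𝕜 (G →ᵇ 𝕜)) : Set (G →ᵇ 𝕜)) :=
    Submodule.isClosed_topologicalClosure _
  refine hc.closure_subset (Metric.mem_closure_iff.2 fun ε hε => ?_)
  obtain ⟨A, -, hA⟩ := h (ε / 2) (by positivity)
  refine ⟨(negAvg F a A).1, (negAvg F a A).2, ?_⟩
  rw [dist_comm, dist_eq_norm]
  linarith

lemma neg_avg_le (F : G →ᵇ 𝕜) (a : ℕ → G) {A : Finset ℕ} (hA : A.Nonempty)
    (N : Seminorm 𝕜 (K.orb F)) (hinv : ∀ g x, N (K.rho F g x) = N x) :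
    N (negAvg F a A) ≤ N ⟨F, K.self_mem_orb F⟩ := by
  have hc : (0 : ℝ) < A.card := by exact_mod_cast hA.card_pos
  have h1 : ∀ B : Finset ℕ, N (∑ e ∈ B, K.rho F (a e) ⟨F, K.self_mem_orb F⟩) ≤
      B.card * N ⟨F, K.self_mem_orb F⟩ := by
    intro B
    induction B using Finset.induction_on with
    | empty => simp
    | insert i B hi ih =>
      rw [Finset.sum_insert hi, Finset.card_insert_of_notMem hi]
      refine (map_add_le_add N _ _).trans ?_
      rw [hinv]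
      push_cast
      linarith
  unfold negAvg
  rw [map_smul_eq_mul, norm_inv, RCLike.norm_natCast, inv_mul_le_iff₀ hc]
  exact h1 A

lemma neg_le (F : G →ᵇ 𝕜) (u : K.orb F) (a : ℕ → G)
    (h : ∀ ε : ℝ, 0 < ε → ∃ A : Finset ℕ, A.Nonempty ∧ ‖(negAvg F a A).1 - u.1‖ ≤ ε)
    (N : Seminorm 𝕜 (K.orb F)) {β : ℝ} (hβ : 0 < β) (hN : ∀ x, N x ≤ β * ‖x‖)
    (hinv : ∀ g x, N (K.rho F g x) = N x) : N u ≤ N ⟨F, K.self_mem_orb F⟩ := by
  refine le_of_forall_pos_le_add fun ε hε => ?_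
  obtain ⟨A, hA, hn⟩ := h (ε / β) (by positivity)
  have h1 := neg_avg_le F a hA N hinv
  have h2 : N (u - negAvg F a A) ≤ ε := by
    refine (hN _).trans ?_
    have e : ‖u - negAvg F a A‖ = ‖(negAvg F a A).1 - u.1‖ := by
      rw [norm_sub_rev]
      rfl
    rw [e, ← le_div_iff₀' hβ]
    exact hn
  have h3 := map_add_le_add N (u - negAvg F a A) (negAvg F a A)
  rw [sub_add_cancel] at h3
  linarith

end NegAux

open Classical in
/-- the closed span of the translates of `f` has no invariant strictly convex renorming -/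
theorem neg (𝕜 : Type) [RCLike 𝕜] [Countable G] (a : ℕ → G) (f : G → ℝ) (hf : ∀ x, |f x| ≤ 1)
    (hav : ∀ s : ℝ, s = 1 ∨ s = -1 → ∀ ε : ℝ, 0 < ε →
      ∃ A : Finset ℕ, A.Nonempty ∧ ∀ x : G,
        |(∑ e ∈ A, f (x * a e)) / A.card - (f x + if x = 1 then s else 0)| ≤ ε) :
    ∃ (X : Type) (_ : NormedAddCommGroup X) (_ : NormedSpace 𝕜 X),
      CompleteSpace X ∧ TopologicalSpace.SeparableSpace X ∧
      ∃ ρ : G →* (X ≃ₗᵢ[𝕜] X), ∀ N : Seminorm 𝕜 X,
        (∃ α β : ℝ, 0 < α ∧ 0 < β ∧ ∀ x, α * ‖x‖ ≤ N x ∧ N x ≤ β * ‖x‖) →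
        (∀ g x, N (ρ g x) = N x) →
        ∃ x y : X, N x = 1 ∧ N y = 1 ∧ x ≠ y ∧ N ((1 / 2 : 𝕜) • (x + y)) = 1 := by
  let _ : TopologicalSpace G := ⊥
  have _ : DiscreteTopology G := ⟨rfl⟩
  let F : BoundedContinuousFunction G 𝕜 :=
    BoundedContinuousFunction.ofNormedAddCommGroupDiscrete (fun x => ((f x : ℝ) : 𝕜)) 1
      (fun x => by rw [RCLike.norm_ofReal]; exact hf x)
  have hF : ∀ x, F x = ((f x : ℝ) : 𝕜) := fun x => rfl
  let U : ℝ → BoundedContinuousFunction G 𝕜 := fun s =>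
    BoundedContinuousFunction.ofNormedAddCommGroupDiscrete
      (fun x => ((f x + if x = 1 then s else 0 : ℝ) : 𝕜)) (1 + |s|) (fun x => by
        rw [RCLike.norm_ofReal]
        refine (abs_add_le _ _).trans (add_le_add (hf x) ?_)
        split_ifs
        · exact le_rfl
        · simp)
  have hU : ∀ s x, U s x = ((f x + if x = 1 then s else 0 : ℝ) : 𝕜) := fun s x => rfl
  have hlim : ∀ s : ℝ, s = 1 ∨ s = -1 → ∀ ε : ℝ, 0 < ε →
      ∃ A : Finset ℕ, A.Nonempty ∧ ‖(negAvg F a A).1 - U s‖ ≤ ε := by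
    intro s hs ε hε
    obtain ⟨A, hA, h⟩ := hav s hs ε hε
    refine ⟨A, hA, (BoundedContinuousFunction.norm_le hε.le).2 fun x => ?_⟩
    have e : ((negAvg F a A).1 - U s) x =
        (((∑ e ∈ A, f (x * a e)) / A.card - (f x + if x = 1 then s else 0) : ℝ) : 𝕜) := by
      rw [BoundedContinuousFunction.sub_apply, negAvg_apply, hU]
      simp only [hF]
      rw [RCLike.ofReal_sub, RCLike.ofReal_div, RCLike.ofReal_sum, RCLike.ofReal_natCast,
        div_eq_inv_mul]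
    rw [e, RCLike.norm_ofReal]
    exact h x
  refine ⟨K.orb F, inferInstance, inferInstance, inferInstance, inferInstance, K.rho F, ?_⟩
  rintro N ⟨α, β, hα, hβ, hN⟩ hinv
  let m : K.orb F := ⟨F, K.self_mem_orb F⟩
  let p : K.orb F := ⟨U 1, neg_mem F _ a (hlim 1 (.inl rfl))⟩
  let q : K.orb F := ⟨U (-1), neg_mem F _ a (hlim (-1) (.inr rfl))⟩
  have hp : N p ≤ N m := neg_le F p a (hlim 1 (.inl rfl)) N hβ (fun x => (hN x).2) hinv
  have hq : N q ≤ N m := neg_le F q a (hlim (-1) (.inr rfl)) N hβ (fun x => (hN x).2) hinv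
  have hmid : (1 / 2 : 𝕜) • (p + q) = m := by
    apply Subtype.ext
    ext x
    show (1 / 2 : 𝕜) * (U 1 x + U (-1) x) = F x
    rw [hU, hU, hF]
    split_ifs
    · push_cast
      ring
    · push_cast
      ring
  have hpq : p ≠ q := by
    intro h
    have h1 : U 1 1 = U (-1) 1 := congrArg (fun u : K.orb F => u.1 1) h
    rw [hU, hU] at h1
    have h2 := RCLike.ofReal_injective h1
    simp only [if_true] at h2
    linarith
  have hsum : N m ≤ 1 / 2 * (N p + N q) := by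
    rw [← hmid, map_smul_eq_mul]
    have e : ‖(1 / 2 : 𝕜)‖ = 1 / 2 := by
      rw [norm_div, norm_one, RCLike.norm_two]
    rw [e]
    exact mul_le_mul_of_nonneg_left (map_add_le_add N p q) (by norm_num)
  have ep : N p = N m := by linarith
  have eq' : N q = N m := by linarith
  have hdef : ∀ x, N x = 0 → x = 0 := by
    intro x hx
    have h1 := (hN x).1
    rw [hx] at h1
    have h2 : ‖x‖ ≤ 0 := by
      by_contra h3
      have := mul_pos hα (not_le.1 h3)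
      linarith
    exact norm_le_zero_iff.1 h2
  have hNm : 0 < N m := by
    refine lt_of_le_of_ne (apply_nonneg N m) fun h => hpq ?_
    rw [hdef p (ep.trans h.symm), hdef q (eq'.trans h.symm)]
  obtain ⟨c, hc⟩ : ∃ c : 𝕜, c = (((N m)⁻¹ : ℝ) : 𝕜) := ⟨_, rfl⟩
  have hcn : ‖c‖ = (N m)⁻¹ := by rw [hc, RCLike.norm_ofReal, abs_of_pos (inv_pos.2 hNm)]
  have hc0 : c ≠ 0 := by
    rw [← norm_pos_iff, hcn]
    exact inv_pos.2 hNm
  refine ⟨c • p, c • q, ?_, ?_, fun h => hpq (smul_right_injective _ hc0 h), ?_⟩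
  · rw [map_smul_eq_mul, hcn, ep, inv_mul_cancel₀ hNm.ne']
  · rw [map_smul_eq_mul, hcn, eq', inv_mul_cancel₀ hNm.ne']
  · rw [← smul_add, smul_comm, hmid, map_smul_eq_mul, hcn, inv_mul_cancel₀ hNm.ne']

end Pool.Agent.Lib.MP_95bae3_an.FC
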