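import Pool.Agent.Lib.MP_95bae3_an.FC.Defs

set_option autoImplicit false

open Pointwise

namespace Pool.Agent.Lib.MP_95bae3_an.FC

variable {Γ : Type} [Group Γ] {X : Type} [NormedAddCommGroup X] [NormedSpace ℝ X]

lemma core_half {x y : X} {a b : ℝ} (hx : ‖x‖ ≤ a) (hy : ‖y‖ ≤ b) :
    ‖(1 / 2 : ℝ) • (x + y)‖ ≤ (a + b) / 2 := by
  rw [norm_smul, Real.norm_of_nonneg (by norm_num)]
  linarith [norm_add_le x y]

lemma core_half' {x y : X} {a b : ℝ} (hx : ‖x‖ ≤ a) (hy : ‖y‖ ≤ b) :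
    ‖(1 / 2 : ℝ) • (x - y)‖ ≤ (a + b) / 2 := by
  rw [sub_eq_add_neg]
  exact core_half hx (by rwa [norm_neg])

lemma core_ex (M M' : X →L[ℝ] X) (hM : ∀ x, ‖M x‖ ≤ ‖x‖) (hM' : ∀ x, ‖M' x‖ ≤ ‖x‖) (m h : X)
    {η : ℝ} (h1 : ‖M m - (m + h)‖ ≤ η) (h2 : ‖M' m - (m - h)‖ ≤ η)
    (h3 : ‖(1 / 2 : ℝ) • (M h + M' h) - h‖ ≤ 3 * η) (k : ℕ) :
    ∃ a b : X, (∀ s : ℝ, ‖s • a + b‖ ^ 2 ≤ (s ^ 2 + k) * ‖m‖ ^ 2) ∧ ‖a - m‖ ≤ k * η ∧
      ‖b - (k : ℝ) • h‖ ≤ 5 * (k : ℝ) ^ 2 * η := by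
  have h0 : 0 ≤ η := (norm_nonneg _).trans h1
  induction k with
  | zero => exact ⟨m, 0, fun s => by simp [norm_smul, mul_pow], by simp, by simp⟩
  | succ k ih =>
    obtain ⟨a, b, c1, c2, c3⟩ := ih
    have hk : (0 : ℝ) ≤ k := Nat.cast_nonneg k
    refine ⟨(1 / 2 : ℝ) • (M a + M' a), (1 / 2 : ℝ) • (M b + M' b) + (1 / 2 : ℝ) • (M a - M' a),
      fun s => ?_, ?_, ?_⟩
    · have e : s • (1 / 2 : ℝ) • (M a + M' a) +
          ((1 / 2 : ℝ) • (M b + M' b) + (1 / 2 : ℝ) • (M a - M' a)) =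
          (1 / 2 : ℝ) • (M ((s + 1) • a + b) + M' ((s - 1) • a + b)) := by
        simp only [map_add, map_smul]
        module
      have d := pow_le_pow_left₀ (norm_nonneg _)
        (core_half (hM ((s + 1) • a + b)) (hM' ((s - 1) • a + b))) 2
      rw [e]
      push_cast
      nlinarith [c1 (s + 1), c1 (s - 1), sq_nonneg (‖(s + 1) • a + b‖ - ‖(s - 1) • a + b‖)]
    · have e : (1 / 2 : ℝ) • (M a + M' a) - m = (1 / 2 : ℝ) • (M (a - m) + M' (a - m)) +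
          (1 / 2 : ℝ) • ((M m - (m + h)) + (M' m - (m - h))) := by
        simp only [map_sub]
        module
      rw [e]
      push_cast
      linarith [norm_add_le ((1 / 2 : ℝ) • (M (a - m) + M' (a - m)))
        ((1 / 2 : ℝ) • ((M m - (m + h)) + (M' m - (m - h)))), core_half h1 h2,
        core_half (hM (a - m)) (hM' (a - m))]
    · have e : (1 / 2 : ℝ) • (M b + M' b) + (1 / 2 : ℝ) • (M a - M' a) - ((k + 1 : ℕ) : ℝ) • h =
          (1 / 2 : ℝ) • (M (b - (k : ℝ) • h) + M' (b - (k : ℝ) • h)) +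
            (k : ℝ) • ((1 / 2 : ℝ) • (M h + M' h) - h) + (1 / 2 : ℝ) • (M (a - m) - M' (a - m)) +
            (1 / 2 : ℝ) • ((M m - (m + h)) - (M' m - (m - h))) := by
        simp only [map_sub, map_smul]
        push_cast
        module
      have d : ‖(k : ℝ) • ((1 / 2 : ℝ) • (M h + M' h) - h)‖ ≤ k * (3 * η) := by
        rw [norm_smul, Real.norm_of_nonneg hk]
        exact mul_le_mul_of_nonneg_left h3 hk
      rw [e]
      refine (norm_add_le_of_le (norm_add_le_of_le (norm_add_le_of_le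
        (core_half ((hM _).trans c3) ((hM' _).trans c3)) d)
        (core_half' ((hM _).trans c2) ((hM' _).trans c2))) (core_half' h1 h2)).trans ?_
      push_cast
      nlinarith [mul_nonneg hk h0]

/-- two contractions that move `m` to `m + h` and `m - h` and whose mean almost fixes `h` -/
theorem core (M M' : X →L[ℝ] X) (hM : ∀ x, ‖M x‖ ≤ ‖x‖) (hM' : ∀ x, ‖M' x‖ ≤ ‖x‖) (m h : X)
    {η : ℝ} (h1 : ‖M m - (m + h)‖ ≤ η) (h2 : ‖M' m - (m - h)‖ ≤ η)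
    (h3 : ‖(1 / 2 : ℝ) • (M h + M' h) - h‖ ≤ 3 * η) (k : ℕ) :
    k * ‖h‖ ≤ √k * ‖m‖ + 5 * (k : ℝ) ^ 2 * η := by
  obtain ⟨a, b, c1, -, c3⟩ := core_ex M M' hM hM' m h h1 h2 h3 k
  have hk : (0 : ℝ) ≤ k := Nat.cast_nonneg k
  have d1 : ‖b‖ ≤ √k * ‖m‖ := by
    refine (pow_le_pow_iff_left₀ (norm_nonneg _) (by positivity) two_ne_zero).1 ?_
    rw [mul_pow, Real.sq_sqrt hk]
    simpa using c1 0
  have d2 := norm_sub_norm_le ((k : ℝ) • h) b
  rw [norm_smul, Real.norm_of_nonneg hk, norm_sub_rev] at d2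
  linarith

/-- an operator from the hull of the elements with finite class has a large commutant -/
theorem hull_comm (ρ : Γ →* (X ≃ₗᵢ[ℝ] X)) {T : X →L[ℝ] X} (hT : T ∈ hull ρ (fc Γ)) :
    ∃ N : Subgroup Γ, N.FiniteIndex ∧ ∀ S ∈ hull ρ N, ∀ x, S (T x) = T (S x) := by
  have h1 : ∃ N : Subgroup Γ, N.FiniteIndex ∧ ∀ g ∈ N, ∀ x, ρ g (T x) = T (ρ g x) := by
    refine convexHull_min (t := {T : X →L[ℝ] X |
      ∃ N : Subgroup Γ, N.FiniteIndex ∧ ∀ g ∈ N, ∀ x, ρ g (T x) = T (ρ g x)}) ?_ ?_ hT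
    · rintro _ ⟨c, hc, rfl | rfl⟩ <;> refine ⟨_, mem_fc.1 hc, fun g hg x => ?_⟩ <;>
        have e := Subgroup.mem_centralizer_singleton_iff.1 hg
      · rw [op_apply, op_apply, ← rho_mul, ← rho_mul, e]
      · rw [neg_apply, neg_apply, map_neg, op_apply,
          op_apply, ← rho_mul, ← rho_mul, e]
    · rintro S ⟨N, hN, hS⟩ T ⟨N', hN', hT⟩ s t - - -
      refine ⟨N ⊓ N', inferInstance, fun g hg x => ?_⟩
      simp only [add_apply, smul_apply, map_add, map_smul,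
        hS g hg.1, hT g hg.2]
  obtain ⟨N, hN, h2⟩ := h1
  refine ⟨N, hN, fun S hS => convexHull_min (t := {S : X →L[ℝ] X | ∀ x, S (T x) = T (S x)})
    ?_ ?_ hS⟩
  · rintro _ ⟨g, hg, rfl | rfl⟩ x
    · exact h2 g hg x
    · rw [neg_apply, neg_apply, map_neg, op_apply,
        op_apply, h2 g hg]
  · intro S hS S' hS' s t _ _ _ x
    simp only [add_apply, smul_apply, map_add, map_smul,
      hS x, hS' x]

theorem extreme (ρ : Γ →* (X ≃ₗᵢ[ℝ] X)) (hD : (fc Γ).FiniteIndex) (m h : X)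
    (H : ∀ N : Subgroup Γ, N.FiniteIndex → ∀ η : ℝ, 0 < η →
      (∃ T ∈ hull ρ N, ‖T m - (m + h)‖ ≤ η) ∧ ∃ T ∈ hull ρ N, ‖T m - (m - h)‖ ≤ η) :
    h = 0 := by
  have key : ∀ (k : ℕ) (η : ℝ), 0 < η → k * ‖h‖ ≤ √k * ‖m‖ + 5 * (k : ℝ) ^ 2 * η := by
    intro k η hη
    obtain ⟨⟨T, hT, t1⟩, T', hT', t2⟩ := H _ hD η hη
    obtain ⟨N, hN, c1⟩ := hull_comm ρ hT
    obtain ⟨N', hN', c2⟩ := hull_comm ρ hT'
    have mono : ∀ {A B : Subgroup Γ}, A ≤ B → hull ρ A ⊆ hull ρ B := fun hAB =>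
      convexHull_mono fun S ⟨g, hg, e⟩ => ⟨g, hAB hg, e⟩
    obtain ⟨⟨M, hM, m1⟩, M', hM', m2⟩ := H (N ⊓ N') inferInstance η hη
    refine core M M' (hull_norm ρ _ hM) (hull_norm ρ _ hM') m h m1 m2 ?_ k
    obtain ⟨u, hu⟩ : ∃ u, u = (1 / 2 : ℝ) • ((T m - (m + h)) - (T' m - (m - h))) := ⟨_, rfl⟩
    obtain ⟨v, hv⟩ : ∃ v, v = (1 / 2 : ℝ) • ((M m - (m + h)) + (M' m - (m - h))) := ⟨_, rfl⟩
    have d1 : ‖u‖ ≤ η := by linarith [hu ▸ core_half' t1 t2]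
    have d2 : ‖v‖ ≤ η := by linarith [hv ▸ core_half m1 m2]
    have e0 : u = (1 / 2 : ℝ) • (T m - T' m) - h := by rw [hu]; module
    have e1 : v = (1 / 2 : ℝ) • (M m + M' m) - m := by rw [hv]; module
    have e : (1 / 2 : ℝ) • (M h + M' h) - h =
        u - (1 / 2 : ℝ) • (M u + M' u) + (1 / 2 : ℝ) • (T v - T' v) := by
      rw [e0, e1]
      simp only [map_sub, map_add, map_smul, c1 M (mono inf_le_left hM),
        c1 M' (mono inf_le_left hM'), c2 M (mono inf_le_right hM), c2 M' (mono inf_le_right hM')]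
      module
    rw [e]
    refine (norm_add_le_of_le (norm_sub_le_of_le d1
      (core_half ((hull_norm ρ _ hM u).trans d1) ((hull_norm ρ _ hM' u).trans d1)))
      (core_half' ((hull_norm ρ _ hT v).trans d2) ((hull_norm ρ _ hT' v).trans d2))).trans ?_
    linarith
  by_contra hne
  have hp : 0 < ‖h‖ := norm_pos_iff.2 hne
  obtain ⟨n, hn⟩ := exists_nat_gt (‖m‖ / ‖h‖)
  rw [div_lt_iff₀ hp] at hn
  have hn0 : (0 : ℝ) < n := by
    by_contra h0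
    nlinarith [norm_nonneg m]
  have d : (n : ℝ) ^ 2 * ‖h‖ ≤ n * ‖m‖ := by
    refine le_of_forall_pos_le_add fun ε hε => ?_
    have := key (n ^ 2) (ε / (5 * ((n : ℝ) ^ 2) ^ 2)) (by positivity)
    push_cast at this
    rwa [Real.sqrt_sq hn0.le, mul_div_cancel₀ _ (by positivity)] at this
  nlinarith [mul_lt_mul_of_pos_left hn hn0]

end Pool.Agent.Lib.MP_95bae3_an.FC
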