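import Mathlib

/-! Definitions for the classification of the groups all of whose separable Banach spaces have an
invariant strictly convex renorming. -/

set_option autoImplicit false

open Pointwise

namespace Pool.Agent.Lib.MP_95bae3_an.FC

section Grp

variable {G : Type} [Group G]

/-- the elements whose centraliser has finite index -/
def fc (G : Type) [Group G] : Subgroup G where
  carrier := {g | (Subgroup.centralizer {g}).FiniteIndex}
  one_mem' := by
    have : Subgroup.centralizer ({1} : Set G) = ⊤ := by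
      ext x
      simp [Subgroup.mem_centralizer_iff]
    show (Subgroup.centralizer ({1} : Set G)).FiniteIndex
    rw [this]
    infer_instance
  mul_mem' := by
    intro a b ha hb
    have h1 : (Subgroup.centralizer ({a} : Set G)).FiniteIndex := ha
    have h2 : (Subgroup.centralizer ({b} : Set G)).FiniteIndex := hb
    refine Subgroup.finiteIndex_of_le
      (H := Subgroup.centralizer ({a} : Set G) ⊓ Subgroup.centralizer {b}) fun x hx => ?_
    have e1 := Subgroup.mem_centralizer_singleton_iff.1 hx.1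
    have e2 := Subgroup.mem_centralizer_singleton_iff.1 hx.2
    refine Subgroup.mem_centralizer_singleton_iff.2 ?_
    rw [← mul_assoc, e1, mul_assoc, e2, mul_assoc]
  inv_mem' := by
    intro a ha
    have h1 : (Subgroup.centralizer ({a} : Set G)).FiniteIndex := ha
    refine Subgroup.finiteIndex_of_le (H := Subgroup.centralizer ({a} : Set G)) fun x hx => ?_
    have e1 : Commute x a := Subgroup.mem_centralizer_singleton_iff.1 hx
    exact Subgroup.mem_centralizer_singleton_iff.2 e1.inv_right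

lemma mem_fc {g : G} : g ∈ fc G ↔ (Subgroup.centralizer {g}).FiniteIndex := Iff.rfl

lemma mem_fc_iff {g : G} : g ∈ fc G ↔ {x | IsConj g x}.Finite := by
  have e : {x | IsConj g x} = MulAction.orbit (ConjAct G) g := by
    ext x
    rw [ConjAct.mem_orbit_conjAct]
    exact isConj_comm
  have e2 : (Subgroup.centralizer ({g} : Set G)).index =
      (MulAction.orbit (ConjAct G) g).ncard := by
    rw [← MulAction.index_stabilizer, ConjAct.stabilizer_eq_centralizer]
    rfl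
  rw [mem_fc, e, Subgroup.finiteIndex_iff, e2]
  exact ⟨Set.finite_of_ncard_ne_zero, fun h =>
    ((Set.ncard_pos h).2 ⟨g, MulAction.mem_orbit_self g⟩).ne'⟩

lemma fc_conj {g : G} (hg : g ∈ fc G) (x : G) : x * g * x⁻¹ ∈ fc G := by
  rw [mem_fc_iff] at hg ⊢
  exact hg.subset fun z hz => (isConj_iff.2 ⟨x, rfl⟩).trans hz

/-- the group element spelled by a word -/
def pw (a : ℕ → G) (y : List ℕ) : G := (y.map a).prod

@[simp] lemma pw_nil (a : ℕ → G) : pw a [] = 1 := rfl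

@[simp] lemma pw_cons (a : ℕ → G) (i : ℕ) (y : List ℕ) : pw a (i :: y) = a i * pw a y := by
  simp [pw]

@[simp] lemma pw_append (a : ℕ → G) (y z : List ℕ) : pw a (y ++ z) = pw a y * pw a z := by
  simp [pw]

/-- words in distinct letters below `k` -/
def Low (k : ℕ) (y : List ℕ) : Prop := y.Nodup ∧ ∀ i ∈ y, i < k

/-- their values and the inverses -/
def W (a : ℕ → G) (k : ℕ) : Set G := {g | ∃ y, Low k y ∧ (g = pw a y ∨ g = (pw a y)⁻¹)}

lemma W_pw {a : ℕ → G} {k : ℕ} {y : List ℕ} (h : Low k y) : pw a y ∈ W a k := ⟨y, h, .inl rfl⟩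

lemma W_inv {a : ℕ → G} {k : ℕ} {y : List ℕ} (h : Low k y) : (pw a y)⁻¹ ∈ W a k :=
  ⟨y, h, .inr rfl⟩

lemma W_one (a : ℕ → G) (k : ℕ) : (1 : G) ∈ W a k := W_pw (y := []) ⟨List.nodup_nil, by simp⟩

lemma W_let (a : ℕ → G) {k i : ℕ} (h : i < k) : a i ∈ W a k := by
  simpa using W_pw (a := a) (k := k) (y := [i]) ⟨List.nodup_singleton i, by simpa using h⟩

lemma W_let_inv (a : ℕ → G) {k i : ℕ} (h : i < k) : (a i)⁻¹ ∈ W a k := by
  simpa using W_inv (a := a) (k := k) (y := [i]) ⟨List.nodup_singleton i, by simpa using h⟩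

lemma mem5 {S : Set G} {s1 s2 s3 s4 s5 : G} (h1 : s1 ∈ S) (h2 : s2 ∈ S) (h3 : s3 ∈ S)
    (h4 : s4 ∈ S) (h5 : s5 ∈ S) : s1 * s2 * s3 * s4 * s5 ∈ S ^ 5 := by
  rw [pow_succ, pow_succ, pow_succ, pow_two]
  exact Set.mul_mem_mul (Set.mul_mem_mul (Set.mul_mem_mul (Set.mul_mem_mul h1 h2) h3) h4) h5

/-- splitting a word at its top letter -/
lemma Low.split {k : ℕ} {y : List ℕ} (h : Low (k + 1) y) (hk : k ∈ y) :
    ∃ p q, y = p ++ k :: q ∧ Low k p ∧ Low k q ∧ Low k (p ++ q) := by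
  obtain ⟨p, q, rfl⟩ := List.append_of_mem hk
  obtain ⟨h1, h2⟩ := h
  have h3 := List.nodup_cons.1 (List.nodup_middle.1 h1)
  have h4 : ∀ i ∈ p ++ q, i < k := fun i hi => by
    have := h2 i (by
      rcases List.mem_append.1 hi with hi | hi
      · exact List.mem_append_left _ hi
      · exact List.mem_append_right _ (List.mem_cons_of_mem _ hi))
    have : i ≠ k := fun e => h3.1 (e ▸ hi)
    omega
  exact ⟨p, q, rfl, ⟨h3.2.of_append_left, fun i hi => h4 i (List.mem_append_left _ hi)⟩,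
    ⟨h3.2.of_append_right, fun i hi => h4 i (List.mem_append_right _ hi)⟩, h3.2, h4⟩

lemma Low.drop {k : ℕ} {y : List ℕ} (h : Low (k + 1) y) (hk : k ∉ y) : Low k y :=
  ⟨h.1, fun i hi => by
    have := h.2 i hi
    have : i ≠ k := fun e => hk (e ▸ hi)
    omega⟩

lemma exists_low {y : List ℕ} (h : y.Nodup) : ∃ k, ∀ k', k ≤ k' → Low k' y :=
  ⟨y.sum + 1, fun _ hk => ⟨h, fun i hi => by
    have := List.single_le_sum (fun _ _ => Nat.zero_le _) i hi
    omega⟩⟩

/-- every letter is in general position with respect to the earlier ones -/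
structure Letters (a : ℕ → G) : Prop where
  lin : ∀ k, ∀ b ∈ W a k ^ 5, (a k)⁻¹ * b ∉ fc G
  cj : ∀ k, ∀ w ∈ W a k ^ 5, ∀ c ∈ W a k ^ 5, a k * w * (a k)⁻¹ = c → w ∈ fc G ∧ c = w

end Grp

section Ban

variable {Γ : Type} [Group Γ] {X : Type} [NormedAddCommGroup X] [NormedSpace ℝ X]

/-- the operator of a group element -/
noncomputable def op (ρ : Γ →* (X ≃ₗᵢ[ℝ] X)) (g : Γ) : X →L[ℝ] X :=
  (ρ g).toLinearIsometry.toContinuousLinearMap

@[simp] lemma op_apply (ρ : Γ →* (X ≃ₗᵢ[ℝ] X)) (g : Γ) (x : X) : op ρ g x = ρ g x := rfl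

/-- absolutely convex combinations of the operators of a subgroup -/
def hull (ρ : Γ →* (X ≃ₗᵢ[ℝ] X)) (N : Subgroup Γ) : Set (X →L[ℝ] X) :=
  convexHull ℝ {T | ∃ g ∈ N, T = op ρ g ∨ T = -op ρ g}

lemma rho_mul (ρ : Γ →* (X ≃ₗᵢ[ℝ] X)) (g h : Γ) (x : X) : ρ (g * h) x = ρ g (ρ h x) := by
  rw [map_mul]
  rfl

lemma hull_norm (ρ : Γ →* (X ≃ₗᵢ[ℝ] X)) (N : Subgroup Γ) {T : X →L[ℝ] X} (hT : T ∈ hull ρ N)
    (x : X) : ‖T x‖ ≤ ‖x‖ := by
  have hc : Convex ℝ {T : X →L[ℝ] X | ‖T x‖ ≤ ‖x‖} := by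
    intro S hS T hT s t hs ht hst
    have h1 : ‖S x‖ ≤ ‖x‖ := hS
    have h2 : ‖T x‖ ≤ ‖x‖ := hT
    show ‖s • S x + t • T x‖ ≤ ‖x‖
    refine (norm_add_le _ _).trans ?_
    rw [norm_smul, norm_smul, Real.norm_of_nonneg hs, Real.norm_of_nonneg ht]
    calc s * ‖S x‖ + t * ‖T x‖ ≤ s * ‖x‖ + t * ‖x‖ := by gcongr
      _ = ‖x‖ := by rw [← add_mul, hst, one_mul]
  refine convexHull_min ?_ hc hT
  rintro _ ⟨g, -, rfl | rfl⟩
  · exact ((ρ g).norm_map x).le
  · show ‖-(ρ g x)‖ ≤ ‖x‖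
    rw [norm_neg]
    exact ((ρ g).norm_map x).le

end Ban

end Pool.Agent.Lib.MP_95bae3_an.FC
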