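import Pool.Agent.Lib.MP_95bae3_an.FC.Defs

set_option autoImplicit false

open Pointwise

namespace Pool.Agent.Lib.MP_95bae3_an.FC

variable {Γ : Type} [Group Γ] {X : Type} [NormedAddCommGroup X] [NormedSpace ℝ X]

lemma gau_op_mul (ρ : Γ →* (X ≃ₗᵢ[ℝ] X)) (g h : Γ) : op ρ g * op ρ h = op ρ (g * h) := by
  ext x
  simp only [ContinuousLinearMap.mul_apply, op_apply, rho_mul]

lemma gau_op_mem (ρ : Γ →* (X ≃ₗᵢ[ℝ] X)) (N : Subgroup Γ) {g : Γ} (hg : g ∈ N) :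
    op ρ g ∈ hull ρ N := subset_convexHull ℝ _ ⟨g, hg, .inl rfl⟩

lemma gau_neg_op_mem (ρ : Γ →* (X ≃ₗᵢ[ℝ] X)) (N : Subgroup Γ) {g : Γ} (hg : g ∈ N) :
    -op ρ g ∈ hull ρ N := subset_convexHull ℝ _ ⟨g, hg, .inr rfl⟩

lemma gau_hull_convex (ρ : Γ →* (X ≃ₗᵢ[ℝ] X)) (N : Subgroup Γ) : Convex ℝ (hull ρ N) :=
  convex_convexHull ℝ _

lemma gau_mul_mem (ρ : Γ →* (X ≃ₗᵢ[ℝ] X)) (N : Subgroup Γ) (A : X →L[ℝ] X)
    (h1 : ∀ g ∈ N, A * op ρ g ∈ hull ρ N) (h2 : ∀ g ∈ N, -(A * op ρ g) ∈ hull ρ N)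
    {T : X →L[ℝ] X} (hT : T ∈ hull ρ N) : A * T ∈ hull ρ N := by
  have hc := (gau_hull_convex ρ N).linear_preimage (LinearMap.mulLeft ℝ A)
  refine convexHull_min (t := LinearMap.mulLeft ℝ A ⁻¹' hull ρ N) ?_ hc hT
  rintro _ ⟨g, hg, rfl | rfl⟩
  · exact h1 g hg
  · show A * -op ρ g ∈ hull ρ N
    rw [mul_neg]
    exact h2 g hg

lemma gau_comp_mem (ρ : Γ →* (X ≃ₗᵢ[ℝ] X)) (N : Subgroup Γ) {g : Γ} (hg : g ∈ N)
    {T : X →L[ℝ] X} (hT : T ∈ hull ρ N) : op ρ g * T ∈ hull ρ N := by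
  refine gau_mul_mem ρ N _ (fun h hh => ?_) (fun h hh => ?_) hT <;> rw [gau_op_mul]
  · exact gau_op_mem ρ N (N.mul_mem hg hh)
  · exact gau_neg_op_mem ρ N (N.mul_mem hg hh)

lemma gau_neg_mem (ρ : Γ →* (X ≃ₗᵢ[ℝ] X)) (N : Subgroup Γ)
    {T : X →L[ℝ] X} (hT : T ∈ hull ρ N) : -T ∈ hull ρ N := by
  rw [← neg_one_mul]
  refine gau_mul_mem ρ N _ (fun h hh => ?_) (fun h hh => ?_) hT <;> rw [neg_one_mul]
  · exact gau_neg_op_mem ρ N hh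
  · rw [neg_neg]
    exact gau_op_mem ρ N hh

lemma gau_zero_mem (ρ : Γ →* (X ≃ₗᵢ[ℝ] X)) (N : Subgroup Γ) : (0 : X →L[ℝ] X) ∈ hull ρ N := by
  have h := gau_hull_convex ρ N (gau_op_mem ρ N N.one_mem) (gau_neg_op_mem ρ N N.one_mem)
    (a := 1 / 2) (b := 1 / 2) (by norm_num) (by norm_num) (by norm_num)
  rwa [smul_neg, add_neg_cancel] at h

/-- the gauge of a thickening of the absolutely convex hull of an orbit -/
theorem gauge_orbit (ρ : Γ →* (X ≃ₗᵢ[ℝ] X)) (N : Subgroup Γ) (m : X) (hm : ‖m‖ = 1) {ε : ℝ}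
    (hε : 0 < ε) : ∃ p : Seminorm ℝ X, (∀ z, p z ≤ ε⁻¹ * ‖z‖) ∧ (∀ g ∈ N, ∀ z, p (ρ g z) = p z) ∧
      p m ≤ 1 ∧ (∀ z, ‖z‖ ≤ (1 + ε) * p z) ∧ ∀ z, p z < 1 → ∃ T ∈ hull ρ N, ‖T m - z‖ < ε := by
  set s : Set X := {z | ∃ T ∈ hull ρ N, ‖T m - z‖ < ε} with hs
  have hconv : Convex ℝ s := by
    rintro x ⟨S, hS, hx⟩ y ⟨T, hT, hy⟩ a b ha hb hab
    refine ⟨a • S + b • T, gau_hull_convex ρ N hS hT ha hb hab, ?_⟩
    have h1 : S m - x ∈ Metric.ball (0 : X) ε := mem_ball_zero_iff.2 hx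
    have h2 : T m - y ∈ Metric.ball (0 : X) ε := mem_ball_zero_iff.2 hy
    have h3 := mem_ball_zero_iff.1 (convex_ball (0 : X) ε h1 h2 ha hb hab)
    have e : (a • S + b • T) m - (a • x + b • y) = a • (S m - x) + b • (T m - y) := by
      simp only [ContinuousLinearMap.add_apply, ContinuousLinearMap.smul_apply, smul_sub]
      abel
    rwa [e]
  have hneg : ∀ ⦃x : X⦄, x ∈ s → -x ∈ s := by
    rintro x ⟨T, hT, hx⟩
    refine ⟨-T, gau_neg_mem ρ N hT, ?_⟩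
    have e : (-T) m - -x = -(T m - x) := by
      simp only [ContinuousLinearMap.neg_apply]
      abel
    rwa [e, norm_neg]
  have hball : Metric.ball (0 : X) ε ⊆ s := fun x hx =>
    ⟨0, gau_zero_mem ρ N, by simpa using hx⟩
  have hout : s ⊆ Metric.ball (0 : X) (1 + ε) := by
    rintro x ⟨T, hT, hx⟩
    have h1 := hull_norm ρ N hT m
    have h2 : ‖x‖ ≤ ‖T m‖ + ‖T m - x‖ := by
      have := norm_sub_le (T m) (T m - x)
      rwa [sub_sub_cancel] at this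
    rw [mem_ball_zero_iff]
    linarith
  have hinv : ∀ g ∈ N, ∀ x ∈ s, ρ g x ∈ s := by
    rintro g hg x ⟨T, hT, hx⟩
    refine ⟨op ρ g * T, gau_comp_mem ρ N hg hT, ?_⟩
    rw [ContinuousLinearMap.mul_apply, op_apply, ← map_sub, (ρ g).norm_map]
    exact hx
  have hiff : ∀ g ∈ N, ∀ x, ρ g x ∈ s ↔ x ∈ s := fun g hg x => ⟨fun h => by
    have := hinv g⁻¹ (N.inv_mem hg) _ h
    rwa [← rho_mul, inv_mul_cancel, map_one] at this, hinv g hg x⟩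
  have habs : Absorbent ℝ s := (absorbent_ball_zero hε).mono hball
  have hbal : Balanced ℝ s := (balanced_iff_neg_mem hconv).2 hneg
  refine ⟨gaugeSeminorm hbal hconv habs, fun z => ?_, fun g hg z => ?_, ?_, fun z => ?_,
    fun z hz => ?_⟩
  · have := gauge_mono (absorbent_ball_zero hε) hball z
    rw [gauge_ball hε.le, div_eq_inv_mul] at this
    exact this
  · show gauge s (ρ g z) = gauge s z
    rw [gauge_def', gauge_def']
    congr 1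
    ext r
    simp only [Set.mem_ofPred_eq, ← map_smul, hiff g hg]
  · refine gauge_le_one_of_mem (s := s) ⟨op ρ 1, gau_op_mem ρ N N.one_mem, ?_⟩
    simpa using hε
  · have := gauge_mono habs hout z
    rw [gauge_ball (by linarith), div_le_iff₀ (by linarith), mul_comm] at this
    exact this
  · exact gauge_lt_one_subset_self hconv (hball (Metric.mem_ball_self hε)) habs hz

/-- from a subgroup of finite index to the group -/
theorem coset_sum (ρ : Γ →* (X ≃ₗᵢ[ℝ] X)) (N : Subgroup Γ) (hN : N.FiniteIndex)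
    (p : Seminorm ℝ X) {C : ℝ} (hC : 0 < C) (hp : ∀ z, p z ≤ C * ‖z‖)
    (hi : ∀ g ∈ N, ∀ z, p (ρ g z) = p z) :
    ∃ q : Seminorm ℝ X, (∀ z, q z ≤ ‖z‖) ∧ (∀ g z, q (ρ g z) = q z) ∧
      ∀ x y, p (x + y) < p x + p y → q (x + y) < q x + q y := by
  letI : Fintype (Γ ⧸ N) := Fintype.ofFinite _
  have hcard : (0 : ℝ) < Fintype.card (Γ ⧸ N) := by exact_mod_cast Fintype.card_pos
  set κ : ℝ := (C * Fintype.card (Γ ⧸ N))⁻¹ with hκ
  have hκ0 : 0 < κ := by positivity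
  have hF : ∀ a b : Γ, (a : Γ ⧸ N) = b → ∀ z, p (ρ a⁻¹ z) = p (ρ b⁻¹ z) := fun a b h z => by
    rw [← hi _ (QuotientGroup.eq.1 h) (ρ b⁻¹ z), ← rho_mul, mul_inv_cancel_right]
  have hadd : ∀ (c : Γ ⧸ N) x y, p (ρ c.out⁻¹ (x + y)) ≤ p (ρ c.out⁻¹ x) + p (ρ c.out⁻¹ y) :=
    fun c x y => by
      rw [map_add]
      exact map_add_le_add p _ _
  refine ⟨Seminorm.of (fun z => κ * ∑ c : Γ ⧸ N, p (ρ c.out⁻¹ z)) (fun x y => ?_)
    (fun a x => ?_), fun z => ?_, fun g z => ?_, fun x y h => ?_⟩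
  · rw [← mul_add, ← Finset.sum_add_distrib]
    exact mul_le_mul_of_nonneg_left (Finset.sum_le_sum fun c _ => hadd c x y) hκ0.le
  · simp only [map_smul, map_smul_eq_mul]
    rw [← Finset.mul_sum, mul_left_comm]
  · show κ * ∑ c : Γ ⧸ N, p (ρ c.out⁻¹ z) ≤ ‖z‖
    have h1 : ∑ c : Γ ⧸ N, p (ρ c.out⁻¹ z) ≤ ∑ _c : Γ ⧸ N, C * ‖z‖ :=
      Finset.sum_le_sum fun c _ => by
        have := hp (ρ c.out⁻¹ z)
        rwa [(ρ c.out⁻¹).norm_map] at this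
    rw [Finset.sum_const, Finset.card_univ, nsmul_eq_mul] at h1
    refine (mul_le_mul_of_nonneg_left h1 hκ0.le).trans (le_of_eq ?_)
    rw [hκ]
    field_simp
  · show κ * ∑ c : Γ ⧸ N, p (ρ c.out⁻¹ (ρ g z)) = κ * ∑ c : Γ ⧸ N, p (ρ c.out⁻¹ z)
    congr 1
    rw [← Equiv.sum_comp (MulAction.toPerm g⁻¹) fun c : Γ ⧸ N => p (ρ c.out⁻¹ z)]
    refine Finset.sum_congr rfl fun c _ => ?_
    have e : ((g⁻¹ * c.out : Γ) : Γ ⧸ N) = ((g⁻¹ • c).out : Γ) := by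
      rw [QuotientGroup.out_eq']
      exact MulAction.Quotient.mk_smul_out N g⁻¹ c
    rw [MulAction.toPerm_apply, ← hF _ _ e, ← rho_mul, mul_inv_rev, inv_inv]
  · show κ * ∑ c : Γ ⧸ N, p (ρ c.out⁻¹ (x + y)) <
      κ * ∑ c : Γ ⧸ N, p (ρ c.out⁻¹ x) + κ * ∑ c : Γ ⧸ N, p (ρ c.out⁻¹ y)
    rw [← mul_add, ← Finset.sum_add_distrib]
    refine mul_lt_mul_of_pos_left (Finset.sum_lt_sum (fun c _ => hadd c x y)
      ⟨((1 : Γ) : Γ ⧸ N), Finset.mem_univ _, ?_⟩) hκ0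
    have h1 : ∀ z, p (ρ ((1 : Γ) : Γ ⧸ N).out⁻¹ z) = p z := fun z => by
      rw [hF _ 1 (QuotientGroup.out_eq' _), inv_one, map_one]
      rfl
    rw [h1, h1, h1]
    exact h

end Pool.Agent.Lib.MP_95bae3_an.FC
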