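import Pool.Agent.Lib.MP_95bae3_an.FC.Defs

set_option autoImplicit false

open Pointwise

namespace Pool.Agent.Lib.MP_95bae3_an.FC

variable {Γ : Type} [Group Γ] {X : Type} [NormedAddCommGroup X] [NormedSpace ℝ X]

/-- additivity of a seminorm at a pair passes to nonnegative multiples, ordered case -/
lemma Glob_add_aux (p : Seminorm ℝ X) {x y : X} (h : p x + p y ≤ p (x + y)) {s t : ℝ}
    (ht : 0 ≤ t) (hst : t ≤ s) : p (s • x) + p (t • y) ≤ p (s • x + t • y) := by
  have hs : 0 ≤ s := ht.trans hst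
  have e : s • (x + y) = (s • x + t • y) + (s - t) • y := by
    rw [smul_add, sub_smul]
    abel
  have h1 : p (s • (x + y)) ≤ p (s • x + t • y) + p ((s - t) • y) := by
    rw [e]
    exact map_add_le_add p _ _
  rw [map_smul_eq_mul, map_smul_eq_mul, Real.norm_of_nonneg hs,
    Real.norm_of_nonneg (sub_nonneg.2 hst)] at h1
  rw [map_smul_eq_mul, map_smul_eq_mul, Real.norm_of_nonneg hs, Real.norm_of_nonneg ht]
  have h2 := mul_le_mul_of_nonneg_left h hs
  linarith

/-- additivity of a seminorm at a pair passes to nonnegative multiples -/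
lemma Glob_add (p : Seminorm ℝ X) {x y : X} (h : p x + p y ≤ p (x + y)) {s t : ℝ}
    (hs : 0 ≤ s) (ht : 0 ≤ t) : p (s • x) + p (t • y) ≤ p (s • x + t • y) := by
  rcases le_total t s with hst | hst
  · exact Glob_add_aux p h ht hst
  · have h' : p y + p x ≤ p (y + x) := by rwa [add_comm y x, add_comm (p y)]
    have := Glob_add_aux p h' hs hst
    rwa [add_comm (t • y), add_comm (p (t • y))] at this

lemma Glob_cont (p : Seminorm ℝ X) (hp : ∀ z, p z ≤ ‖z‖) : Continuous p :=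
  Seminorm.continuous_of_le (q := normSeminorm ℝ X) continuous_norm hp

lemma Glob_summable (f : ℕ → Seminorm ℝ X) (hf : ∀ j z, f j z ≤ ‖z‖) (z : X) :
    Summable fun j => (1 / 2 : ℝ) ^ j * f j z :=
  Summable.of_nonneg_of_le (fun j => mul_nonneg (by positivity) (apply_nonneg _ _))
    (fun j => mul_le_mul_of_nonneg_left (hf j z) (by positivity))
    (summable_geometric_two.mul_right ‖z‖)

/-- the weighted sum of a sequence of seminorms and the norm -/
noncomputable def GlobN (f : ℕ → Seminorm ℝ X) (hf : ∀ j z, f j z ≤ ‖z‖) : Seminorm ℝ X :=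
  Seminorm.of (fun z => ‖z‖ + ∑' j, (1 / 2 : ℝ) ^ j * f j z)
    (fun x y => by
      have h1 : ∑' j, (1 / 2 : ℝ) ^ j * f j (x + y)
          ≤ ∑' j, ((1 / 2 : ℝ) ^ j * f j x + (1 / 2 : ℝ) ^ j * f j y) :=
        (Glob_summable f hf _).tsum_le_tsum
          (fun j => by
            rw [← mul_add]
            exact mul_le_mul_of_nonneg_left (map_add_le_add _ _ _) (by positivity))
          ((Glob_summable f hf x).add (Glob_summable f hf y))
      rw [(Glob_summable f hf x).tsum_add (Glob_summable f hf y)] at h1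
      have h2 := norm_add_le x y
      linarith)
    (fun a x => by
      rw [norm_smul, mul_add, ← tsum_mul_left]
      congr 2
      funext j
      rw [map_smul_eq_mul]
      ring)

lemma GlobN_apply (f : ℕ → Seminorm ℝ X) (hf : ∀ j z, f j z ≤ ‖z‖) (z : X) :
    GlobN f hf z = ‖z‖ + ∑' j, (1 / 2 : ℝ) ^ j * f j z := rfl

lemma GlobN_lt (f : ℕ → Seminorm ℝ X) (hf : ∀ j z, f j z ≤ ‖z‖) {x y : X} {i : ℕ}
    (hi : f i (x + y) < f i x + f i y) : GlobN f hf (x + y) < GlobN f hf x + GlobN f hf y := by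
  have h1 : ∑' j, (1 / 2 : ℝ) ^ j * f j (x + y)
      < ∑' j, ((1 / 2 : ℝ) ^ j * f j x + (1 / 2 : ℝ) ^ j * f j y) := by
    refine (Glob_summable f hf _).tsum_lt_tsum (i := i) (fun j => ?_) ?_
      ((Glob_summable f hf x).add (Glob_summable f hf y))
    · show _ ≤ (1 / 2 : ℝ) ^ j * f j x + (1 / 2 : ℝ) ^ j * f j y
      rw [← mul_add]
      exact mul_le_mul_of_nonneg_left (map_add_le_add _ _ _) (by positivity)
    · rw [← mul_add]
      exact mul_lt_mul_of_pos_left hi (by positivity)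
  rw [(Glob_summable f hf x).tsum_add (Glob_summable f hf y)] at h1
  have h2 := norm_add_le x y
  simp only [GlobN_apply]
  linarith

/-- countably many seminorms suffice; their weighted sum is strictly convex -/
theorem glob [TopologicalSpace.SeparableSpace X] (ρ : Γ →* (X ≃ₗᵢ[ℝ] X))
    (hloc : ∀ x y : X, ‖x‖ = 1 → ‖y‖ = 1 → x ≠ y → ∃ p : Seminorm ℝ X, (∀ z, p z ≤ ‖z‖) ∧
      (∀ g z, p (ρ g z) = p z) ∧ p (x + y) < p x + p y) :
    ∃ N : Seminorm ℝ X, (∀ z, ‖z‖ ≤ N z ∧ N z ≤ 3 * ‖z‖) ∧ (∀ g z, N (ρ g z) = N z) ∧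
      ∀ x y, N x = 1 → N y = 1 → x ≠ y → N (x + y) < 2 := by
  have : SecondCountableTopology X := UniformSpace.secondCountable_of_separable X
  let I := {p : Seminorm ℝ X // (∀ z, p z ≤ ‖z‖) ∧ ∀ g z, p (ρ g z) = p z}
  let U : I → Set (X × X) := fun p => {w | p.1 (w.1 + w.2) < p.1 w.1 + p.1 w.2}
  have hU : ∀ p, IsOpen (U p) := fun p => by
    have hc := Glob_cont p.1 p.2.1
    exact isOpen_lt (hc.comp (continuous_fst.add continuous_snd))
      ((hc.comp continuous_fst).add (hc.comp continuous_snd))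
  obtain ⟨T, hT, hTU⟩ := TopologicalSpace.isOpen_iUnion_countable U hU
  let p0 : I := ⟨0, fun z => norm_nonneg z, fun _ _ => rfl⟩
  obtain ⟨F, hF⟩ := (hT.insert p0).exists_eq_range (Set.insert_nonempty _ _)
  let f : ℕ → Seminorm ℝ X := fun j => (F j).1
  have hf : ∀ j z, f j z ≤ ‖z‖ := fun j => (F j).2.1
  refine ⟨GlobN f hf, fun z => ⟨?_, ?_⟩, fun g z => ?_, fun x y hx hy hxy => ?_⟩
  · rw [GlobN_apply]
    exact le_add_of_nonneg_right
      (tsum_nonneg fun j => mul_nonneg (by positivity) (apply_nonneg _ _))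
  · have h1 : ∑' j, (1 / 2 : ℝ) ^ j * f j z ≤ ∑' j : ℕ, (1 / 2 : ℝ) ^ j * ‖z‖ :=
      (Glob_summable f hf z).tsum_le_tsum
        (fun j => mul_le_mul_of_nonneg_left (hf j z) (by positivity))
        (summable_geometric_two.mul_right ‖z‖)
    rw [tsum_mul_right, tsum_geometric_two] at h1
    rw [GlobN_apply]
    linarith
  · rw [GlobN_apply, GlobN_apply, (ρ g).norm_map]
    congr 2
    funext j
    rw [(F j).2.2 g z]
  · by_contra hn
    have hadd : ∀ j, f j x + f j y ≤ f j (x + y) := fun j => by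
      by_contra h
      have := GlobN_lt f hf (not_le.1 h)
      rw [hx, hy] at this
      exact hn (by linarith)
    have hx0 : x ≠ 0 := fun h => by
      rw [h, map_zero] at hx
      exact zero_ne_one hx
    have hy0 : y ≠ 0 := fun h => by
      rw [h, map_zero] at hy
      exact zero_ne_one hy
    have hxp : 0 ≤ ‖x‖⁻¹ := inv_nonneg.2 (norm_nonneg x)
    have hyp : 0 ≤ ‖y‖⁻¹ := inv_nonneg.2 (norm_nonneg y)
    have he : ‖x‖⁻¹ • x = ‖y‖⁻¹ • y := by
      by_contra hne
      obtain ⟨p, h1, h2, h3⟩ := hloc _ _ (norm_smul_inv_norm (𝕜 := ℝ) hx0)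
        (norm_smul_inv_norm (𝕜 := ℝ) hy0) hne
      have hm : (‖x‖⁻¹ • x, ‖y‖⁻¹ • y) ∈ ⋃ p, U p := Set.mem_iUnion.2 ⟨⟨p, h1, h2⟩, h3⟩
      rw [← hTU] at hm
      obtain ⟨q, hq, hm⟩ := Set.mem_iUnion₂.1 hm
      have hq' : q ∈ Set.range F := hF ▸ Set.mem_insert_of_mem _ hq
      obtain ⟨j, rfl⟩ := hq'
      exact absurd hm (not_lt.2 (Glob_add (f j) (hadd j) hxp hyp))
    have h1 := congrArg (GlobN f hf) he
    rw [map_smul_eq_mul, map_smul_eq_mul, hx, hy, mul_one, mul_one, Real.norm_of_nonneg hxp,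
      Real.norm_of_nonneg hyp] at h1
    rw [← h1] at he
    exact hxy (smul_right_injective X (inv_ne_zero (norm_ne_zero_iff.2 hx0)) he)

end Pool.Agent.Lib.MP_95bae3_an.FC
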