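import Pool.Agent.Lib.MP_95bae3_an.FC.Words

set_option autoImplicit false

open Pointwise

namespace Pool.Agent.Lib.MP_95bae3_an.FC

variable {G : Type} [Group G]

theorem Irreg_mixed {a : ℕ → G} (L : Letters a) {k i j : ℕ} {y z : List ℕ} (hy : Low (k + 1) y)
    (hi : i < k + 1) (ho : k ∈ y ∨ i = k) (hz : Low k z) (hj : j < k)
    (he : pw a y * (a i)⁻¹ = pw a z * (a j)⁻¹) (hr : ∀ p, y ≠ p ++ [i]) : False := by
  have o := W_one a k
  by_cases h1 : k ∈ y
  · obtain ⟨p, q, rfl, hp, hq, -⟩ := hy.split h1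
    rw [pw_append, pw_cons] at he
    by_cases h2 : i = k
    · subst h2
      have h3 := L.cj i _ (mem5 (W_pw hq) o o o o) _
        (mem5 (W_inv hp) (W_pw hz) (W_let_inv a hj) o o) (by
          simp only [mul_one]
          rw [mul_assoc (pw a p)⁻¹, ← he]
          group)
      simp only [mul_one] at h3
      by_cases h4 : q = []
      · exact hr p (by rw [h4])
      · exact word_not_mem L hq.1 h4 h3.1
    · refine L.lin k _ (mem5 (W_inv hp) (W_pw hz) (W_let_inv a hj) (W_let a (i := i) (by omega))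
        (W_inv hq)) ?_
      rw [mul_assoc (pw a p)⁻¹, ← he]
      convert (fc G).one_mem using 1
      group
  · obtain rfl : i = k := ho.resolve_left h1
    refine L.lin i _ (mem5 (W_let a hj) (W_inv hz) (W_pw (hy.drop h1)) o o) ?_
    rw [eq_mul_of_mul_inv_eq he]
    convert (fc G).one_mem using 1
    group

theorem Irreg_pair {a : ℕ → G} (L : Letters a) {k i j : ℕ} {p q p' q' : List ℕ} (hp : Low k p)
    (hq : Low k q) (hp' : Low k p') (hq' : Low k q') (hi : i < k) (hj : j < k)
    (he : pw a (p ++ k :: q) * (a i)⁻¹ = pw a (p' ++ k :: q') * (a j)⁻¹) :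
    pw a (p ++ q) * (a i)⁻¹ = pw a (p' ++ q') * (a j)⁻¹ ∧
      pw a q * (a i)⁻¹ * a j * (pw a q')⁻¹ ∈ fc G := by
  have o := W_one a k
  rw [pw_append, pw_cons, pw_append, pw_cons] at he
  have e : pw a p' = pw a p * (a k * pw a q) * (a i)⁻¹ * a j * (pw a q')⁻¹ * (a k)⁻¹ := by
    rw [he]
    group
  have h3 := L.cj k _ (mem5 (W_pw hq) (W_let_inv a hi) (W_let a hj) (W_inv hq') o) _
    (mem5 (W_inv hp) (W_pw hp') o o o) (by
      rw [e]
      group)
  simp only [mul_one] at h3
  refine ⟨?_, h3.1⟩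
  rw [pw_append, pw_append, eq_mul_of_inv_mul_eq h3.2]
  group

theorem Irreg_last {k e : ℕ} {p q r : List ℕ} (h : p ++ q = r ++ [e])
    (hr : ∀ s, p ++ k :: q ≠ s ++ [e]) : q = [] := by
  rcases List.eq_nil_or_concat q with h0 | ⟨q', l, rfl⟩
  · exact h0
  · rw [List.concat_eq_append, ← List.append_assoc] at h
    have h2 : [l] = [e] := (List.append_inj' h rfl).2
    exact absurd (by rw [List.concat_eq_append, h2]; simp) (hr (p ++ k :: q'))

theorem Irreg_ind {a : ℕ → G} (L : Letters a) (A : Finset ℕ) (k : ℕ) :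
    ∀ (t : ℕ) (x : G) (J : Finset ℕ), J ⊆ A → ∀ y : ℕ → List ℕ,
      (∀ e ∈ J, Low k (y e) ∧ e < k) → (∀ e ∈ J, pw a (y e) * (a e)⁻¹ = x) →
      (∀ e ∈ J, ∀ p, y e ≠ p ++ [e]) → (∀ e ∈ J, (A.filter (· ∈ y e)).card ≤ t) →
      J.card ≤ t + 2 := by
  induction k with
  | zero =>
    intro t x J _ y h1 _ _ _
    have : J = ∅ := Finset.eq_empty_of_forall_notMem fun e he => by have := (h1 e he).2; omega
    simp [this]
  | succ k ih =>
    intro t x J hJ y h1 h2 h3 h4
    by_cases hs : J.card ≤ 2
    · omega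
    by_cases hno : ∀ e ∈ J, ¬ (k ∈ y e ∨ e = k)
    · refine ih t x J hJ y (fun e he => ⟨(h1 e he).1.drop fun h => hno e he (.inl h), ?_⟩) h2 h3 h4
      have := (h1 e he).2
      have : e ≠ k := fun h => hno e he (.inr h)
      omega
    push Not at hno
    obtain ⟨i0, hi0, ho⟩ := hno
    have lt : ∀ e ∈ J.erase k, e < k := fun e he => by
      have := (h1 e (Finset.mem_of_mem_erase he)).2
      have := Finset.ne_of_mem_erase he
      omega
    have all : ∀ e ∈ J.erase k, k ∈ y e := fun e he => by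
      by_contra hn
      have he' := Finset.mem_of_mem_erase he
      exact Irreg_mixed L (h1 i0 hi0).1 (h1 i0 hi0).2 ho ((h1 e he').1.drop hn) (lt e he)
        ((h2 i0 hi0).trans (h2 e he').symm) (h3 i0 hi0)
    have sp : ∀ e, ∃ p q : List ℕ, e ∈ J.erase k →
        y e = p ++ k :: q ∧ Low k p ∧ Low k q ∧ Low k (p ++ q) := fun e => by
      by_cases he : e ∈ J.erase k
      · obtain ⟨p, q, h⟩ := (h1 e (Finset.mem_of_mem_erase he)).1.split (all e he)
        exact ⟨p, q, fun _ => h⟩
      · exact ⟨[], [], fun h => absurd h he⟩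
    choose p q hpq using sp
    have pr : ∀ i ∈ J.erase k, ∀ j ∈ J.erase k,
        pw a (p i ++ q i) * (a i)⁻¹ = pw a (p j ++ q j) * (a j)⁻¹ ∧
          pw a (q i) * (a i)⁻¹ * a j * (pw a (q j))⁻¹ ∈ fc G := fun i hi j hj =>
      Irreg_pair L (hpq i hi).2.1 (hpq i hi).2.2.1 (hpq j hj).2.1 (hpq j hj).2.2.1 (lt i hi)
        (lt j hj) (by
          rw [← (hpq i hi).1, ← (hpq j hj).1, h2 i (Finset.mem_of_mem_erase hi),
            h2 j (Finset.mem_of_mem_erase hj)])
    have hc : J.card ≤ (J.erase k).card + 1 := by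
      have := Finset.pred_card_le_card_erase (s := J) (a := k)
      omega
    have irr : ∀ e ∈ J.erase k, ∀ s, p e ++ k :: q e ≠ s ++ [e] := fun e he s => by
      rw [← (hpq e he).1]
      exact h3 e (Finset.mem_of_mem_erase he) s
    by_cases hreg : ∀ e ∈ J.erase k, ∀ s, p e ++ q e ≠ s ++ [e]
    · obtain ⟨j0, hj0⟩ : (J.erase k).Nonempty := Finset.card_pos.1 (by omega)
      have sub : ∀ e ∈ J.erase k, A.filter (· ∈ p e ++ q e) ⊆ (A.filter (· ∈ y e)).erase k :=
        fun e he i hi => by
          obtain ⟨m1, m2⟩ := Finset.mem_filter.1 hi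
          refine Finset.mem_erase.2 ⟨((hpq e he).2.2.2.2 i m2).ne, Finset.mem_filter.2 ⟨m1, ?_⟩⟩
          rw [(hpq e he).1]
          rcases List.mem_append.1 m2 with m | m
          · exact List.mem_append_left _ m
          · exact List.mem_append_right _ (List.mem_cons_of_mem _ m)
      have key := fun t' => ih t' _ (J.erase k) ((Finset.erase_subset _ _).trans hJ)
        (fun e => p e ++ q e) (fun e he => ⟨(hpq e he).2.2.2, lt e he⟩)
        (fun e he => (pr e he j0 hj0).1) hreg
      by_cases hk : k ∈ J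
      · have m : ∀ e ∈ J.erase k, k ∈ A.filter (· ∈ y e) := fun e he =>
          Finset.mem_filter.2 ⟨hJ hk, all e he⟩
        have t1 : 0 < t := lt_of_lt_of_le (Finset.card_pos.2 ⟨k, m j0 hj0⟩)
          (h4 j0 (Finset.mem_of_mem_erase hj0))
        have := key (t - 1) fun e he => by
          have c1 := Finset.card_le_card (sub e he)
          have c2 := Finset.card_erase_of_mem (m e he)
          have c3 := h4 e (Finset.mem_of_mem_erase he)
          omega
        omega
      · have := key t fun e he => (Finset.card_le_card ((sub e he).trans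
          (Finset.erase_subset _ _))).trans (h4 e (Finset.mem_of_mem_erase he))
        rwa [Finset.erase_eq_of_notMem hk] at this
    · push Not at hreg
      obtain ⟨i, hi, r, hr⟩ := hreg
      have qi := Irreg_last hr (irr i hi)
      have lr : r.Nodup := (hr ▸ (hpq i hi).2.2.2.1).of_append_left
      have sub : (J.erase k).erase i ⊆ A.filter (· ∈ y i) := fun j hj => by
        obtain ⟨ji, hj'⟩ := Finset.mem_erase.1 hj
        refine Finset.mem_filter.2 ⟨hJ (Finset.mem_of_mem_erase hj'), ?_⟩
        by_contra hn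
        have jr : j ∉ r := fun h => hn (by
          rw [qi, List.append_nil] at hr
          rw [(hpq i hi).1, hr]
          exact List.mem_append_left _ (List.mem_append_left _ h))
        obtain ⟨e1, e2⟩ := pr i hi j hj'
        have e3 : p j ++ q j = r ++ [j] := by
          refine word_inj L (hpq j hj').2.2.2.1 ?_ ?_
          · rw [← List.concat_eq_append]
            exact (List.nodup_concat r j).2 ⟨jr, lr⟩
          · rw [eq_mul_of_mul_inv_eq e1.symm, hr]
            simp
        rw [qi, Irreg_last e3 (irr j hj')] at e2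
        exact two_letters L (Ne.symm ji) (by simpa using e2)
      have c1 := Finset.card_le_card sub
      have c2 := Finset.pred_card_le_card_erase (s := J.erase k) (a := i)
      have c3 := h4 i (Finset.mem_of_mem_erase hi)
      omega

/-- few letters lead from `x` to the value of a word that does not end in the letter -/
theorem irreg {a : ℕ → G} (L : Letters a) (A : Finset ℕ) (t : ℕ) (x : G) (J : Finset ℕ)
    (hJ : J ⊆ A) (y : ℕ → List ℕ) (h1 : ∀ e ∈ J, (y e).Nodup)
    (h2 : ∀ e ∈ J, pw a (y e) = x * a e) (h3 : ∀ e ∈ J, ∀ p, y e ≠ p ++ [e])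
    (h4 : ∀ e ∈ J, (A.filter (· ∈ y e)).card ≤ t) : J.card ≤ t + 2 := by
  refine Irreg_ind L A (J.sup fun e => (y e).sum + e + 1) t x J hJ y (fun e he => ?_)
    (fun e he => by rw [h2 e he, mul_inv_cancel_right]) h3 h4
  have hle : (y e).sum + e + 1 ≤ J.sup fun e => (y e).sum + e + 1 :=
    Finset.le_sup (f := fun e => (y e).sum + e + 1) he
  refine ⟨⟨h1 e he, fun i hi => ?_⟩, by omega⟩
  have := List.single_le_sum (fun _ _ => Nat.zero_le _) i hi
  omega

end Pool.Agent.Lib.MP_95bae3_an.FC
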