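import Pool.Agent.Lib.MP_95bae3_an.FC.Core
import Pool.Agent.Lib.MP_95bae3_an.FC.Gau

set_option autoImplicit false

open Pointwise

namespace Pool.Agent.Lib.MP_95bae3_an.FC

variable {Γ : Type} [Group Γ] {X : Type} [NormedAddCommGroup X] [NormedSpace ℝ X]

theorem Loc_near (ρ : Γ →* (X ≃ₗᵢ[ℝ] X)) (x y m : X) (hx : ‖x‖ = 1) (hy : ‖y‖ = 1)
    (hm : ‖m‖ = 1) (hs : x + y = (2 : ℝ) • m)
    (H : ∀ p : Seminorm ℝ X, (∀ z, p z ≤ ‖z‖) → (∀ g z, p (ρ g z) = p z) →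
      p x + p y ≤ p (x + y))
    (N : Subgroup Γ) (hN : N.FiniteIndex) (η : ℝ) (hη : 0 < η) :
    ∃ T ∈ hull ρ N, ‖T m - x‖ ≤ η := by
  obtain ⟨ε, hε, rfl⟩ : ∃ ε : ℝ, 0 < ε ∧ η = 3 * ε := ⟨η / 3, by positivity, by ring⟩
  obtain ⟨p, h1, h2, h3, h4, h5⟩ := gauge_orbit ρ N m hm hε
  obtain ⟨q, q1, q2, q3⟩ := coset_sum ρ N hN p (inv_pos.2 hε) h1 h2
  have h6 : p x + p y ≤ p (x + y) := by
    by_contra h
    exact absurd (H q q1 q2) (not_le.2 (q3 x y (not_le.1 h)))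
  have h7 : p (x + y) = 2 * p m := by
    rw [hs, map_smul_eq_mul, Real.norm_ofNat]
  have h8 := h4 y
  rw [hy] at h8
  have h9 : 0 < 1 + 2 * ε := by positivity
  have h10 : p x < 1 + 2 * ε := by
    by_contra h
    have h11 : p y ≤ 1 - 2 * ε := by linarith [not_lt.1 h]
    have h12 : (1 + ε) * p y ≤ (1 + ε) * (1 - 2 * ε) :=
      mul_le_mul_of_nonneg_left h11 (by positivity)
    nlinarith
  obtain ⟨T, hT, hT'⟩ := h5 ((1 + 2 * ε)⁻¹ • x) (by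
    rw [map_smul_eq_mul, Real.norm_eq_abs, abs_of_pos (inv_pos.2 h9), inv_mul_lt_iff₀ h9, mul_one]
    exact h10)
  refine ⟨T, hT, ?_⟩
  have h13 : ‖(1 + 2 * ε)⁻¹ • x - x‖ ≤ 2 * ε := by
    have e : (1 + 2 * ε)⁻¹ • x - x = (-(2 * ε * (1 + 2 * ε)⁻¹)) • x := by
      have e' : -(2 * ε * (1 + 2 * ε)⁻¹) = (1 + 2 * ε)⁻¹ - 1 := by
        field_simp
        ring
      rw [e', sub_smul, one_smul]
    rw [e, norm_smul, hx, mul_one, norm_neg, Real.norm_eq_abs, abs_of_pos (by positivity)]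
    exact mul_le_of_le_one_right (by positivity) (inv_le_one_of_one_le₀ (by linarith))
  have h14 := norm_sub_le_norm_sub_add_norm_sub (T m) ((1 + 2 * ε)⁻¹ • x) x
  linarith

/-- two distinct unit vectors are told apart by an invariant seminorm -/
theorem loc (ρ : Γ →* (X ≃ₗᵢ[ℝ] X)) (hD : (fc Γ).FiniteIndex) (x y : X) (hx : ‖x‖ = 1)
    (hy : ‖y‖ = 1) (hne : x ≠ y) : ∃ p : Seminorm ℝ X, (∀ z, p z ≤ ‖z‖) ∧
      (∀ g z, p (ρ g z) = p z) ∧ p (x + y) < p x + p y := by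
  by_contra hcon
  have H : ∀ p : Seminorm ℝ X, (∀ z, p z ≤ ‖z‖) → (∀ g z, p (ρ g z) = p z) →
      p x + p y ≤ p (x + y) := fun p h1 h2 => not_lt.1 fun h => hcon ⟨p, h1, h2, h⟩
  have h1 : ‖x‖ + ‖y‖ ≤ ‖x + y‖ :=
    H (normSeminorm ℝ X) (fun _ => le_rfl) fun g z => (ρ g).norm_map z
  have h2 : ‖x + y‖ = 2 := by
    have := norm_add_le x y
    linarith
  have hm : ‖(1 / 2 : ℝ) • (x + y)‖ = 1 := by
    rw [norm_smul, h2]
    norm_num
  have hs : x + y = (2 : ℝ) • (1 / 2 : ℝ) • (x + y) := by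
    rw [smul_smul]
    norm_num
  have e1 : (1 / 2 : ℝ) • (x + y) + (1 / 2 : ℝ) • (x - y) = x := by module
  have e2 : (1 / 2 : ℝ) • (x + y) - (1 / 2 : ℝ) • (x - y) = y := by module
  have h3 := extreme ρ hD ((1 / 2 : ℝ) • (x + y)) ((1 / 2 : ℝ) • (x - y)) fun N hN η hη => by
    rw [e1, e2]
    exact ⟨Loc_near ρ x y _ hx hy hm hs H N hN η hη,
      Loc_near ρ y x _ hy hx hm ((add_comm y x).trans hs)
        (fun p a b => by rw [add_comm (p y), add_comm y]; exact H p a b) N hN η hη⟩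
  rw [h3, add_zero] at e1
  rw [h3, sub_zero] at e2
  exact hne (e1.symm.trans e2)

end Pool.Agent.Lib.MP_95bae3_an.FC
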