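import Pool.Agent.Lib.MP_95bae3_an.FC.Loc
import Pool.Agent.Lib.MP_95bae3_an.FC.Glob

set_option autoImplicit false

open Pointwise

namespace Pool.Agent.Lib.MP_95bae3_an.FC

variable {G : Type} [Group G]

/-- the scalars of norm one -/
def posU (𝕜 : Type) [RCLike 𝕜] : Subgroup 𝕜ˣ where
  carrier := {u | ‖(u : 𝕜)‖ = 1}
  one_mem' := by simp
  mul_mem' := by
    intro a b ha hb
    have h1 : ‖(a : 𝕜)‖ = 1 := ha
    have h2 : ‖(b : 𝕜)‖ = 1 := hb
    show ‖((a * b : 𝕜ˣ) : 𝕜)‖ = 1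
    rw [Units.val_mul, norm_mul, h1, h2, one_mul]
  inv_mem' := by
    intro a ha
    have h1 : ‖(a : 𝕜)‖ = 1 := ha
    show ‖((a⁻¹ : 𝕜ˣ) : 𝕜)‖ = 1
    rw [Units.val_inv_eq_inv_val, norm_inv, h1, inv_one]

lemma pos_fc {U : Type} [Group U] (hU : ∀ u v : U, u * v = v * u) (hD : (fc G).FiniteIndex) :
    (fc (G × U)).FiniteIndex := by
  have key : ∀ H : Subgroup G, H.FiniteIndex → (H.prod (⊤ : Subgroup U)).FiniteIndex := by
    intro H hH
    refine ⟨?_⟩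
    rw [Subgroup.index_prod, Subgroup.index_top, mul_one]
    exact hH.index_ne_zero
  have := key _ hD
  refine Subgroup.finiteIndex_of_le (H := (fc G).prod (⊤ : Subgroup U)) fun x hx => ?_
  have := key _ (mem_fc.1 hx.1)
  refine mem_fc.2 (Subgroup.finiteIndex_of_le
    (H := (Subgroup.centralizer ({x.1} : Set G)).prod (⊤ : Subgroup U)) fun y hy => ?_)
  refine Subgroup.mem_centralizer_singleton_iff.2 (Prod.ext ?_ (hU _ _))
  exact Subgroup.mem_centralizer_singleton_iff.1 hy.1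

/-- real or complex scalars -/
theorem pos (𝕜 : Type) [RCLike 𝕜] (hD : (fc G).FiniteIndex) (X : Type) [NormedAddCommGroup X]
    [NormedSpace 𝕜 X] [TopologicalSpace.SeparableSpace X] (ρ : G →* (X ≃ₗᵢ[𝕜] X)) :
    ∃ N : Seminorm 𝕜 X, (∀ z, ‖z‖ ≤ N z ∧ N z ≤ 3 * ‖z‖) ∧ (∀ g z, N (ρ g z) = N z) ∧
      ∀ x y, N x = 1 → N y = 1 → x ≠ y → N (x + y) < 2 := by
  let _ : NormedSpace ℝ X := NormedSpace.restrictScalars ℝ 𝕜 X
  have hsm : ∀ (r : ℝ) (x : X), r • x = (algebraMap ℝ 𝕜 r) • x := fun _ _ => rfl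
  let E : G × posU 𝕜 → (X ≃ₗᵢ[ℝ] X) := fun p =>
    { toFun := fun x => ((p.2 : 𝕜ˣ) : 𝕜) • ρ p.1 x
      invFun := fun x => (ρ p.1).symm ((((p.2 : 𝕜ˣ)⁻¹ : 𝕜ˣ) : 𝕜) • x)
      map_add' := fun x y => by rw [map_add, smul_add]
      map_smul' := fun r x => by
        rw [RingHom.id_apply, hsm, hsm, map_smul, smul_comm]
      left_inv := fun x => by
        simp only [smul_smul, Units.inv_mul, one_smul, LinearIsometryEquiv.symm_apply_apply]
      right_inv := fun x => by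
        simp only [LinearIsometryEquiv.apply_symm_apply, smul_smul, Units.mul_inv, one_smul]
      norm_map' := fun x => by
        have h1 : ‖((p.2 : 𝕜ˣ) : 𝕜)‖ = 1 := p.2.2
        show ‖((p.2 : 𝕜ˣ) : 𝕜) • ρ p.1 x‖ = ‖x‖
        rw [norm_smul, h1, one_mul, (ρ p.1).norm_map] }
  have hE : ∀ p x, E p x = ((p.2 : 𝕜ˣ) : 𝕜) • ρ p.1 x := fun _ _ => rfl
  let σ : G × posU 𝕜 →* (X ≃ₗᵢ[ℝ] X) := MonoidHom.mk' E fun p q => by
    refine LinearIsometryEquiv.ext fun x => ?_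
    show E (p * q) x = E p (E q x)
    rw [hE, hE, hE, map_smul, smul_smul, Prod.fst_mul, map_mul]
    rfl
  have hσ : ∀ p x, σ p x = ((p.2 : 𝕜ˣ) : 𝕜) • ρ p.1 x := fun _ _ => rfl
  have hD' : (fc (G × posU 𝕜)).FiniteIndex :=
    pos_fc (fun u v => Subtype.ext (mul_comm _ _)) hD
  obtain ⟨N, h1, h2, h3⟩ := glob σ (loc σ hD')
  have hs : ∀ (c : 𝕜) (x : X), N (c • x) = ‖c‖ * N x := by
    intro c x
    rcases eq_or_ne c 0 with rfl | hc
    · simp
    · have hn : (algebraMap ℝ 𝕜 ‖c‖) ≠ 0 := by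
        simpa using hc
      have hu : c / algebraMap ℝ 𝕜 ‖c‖ ≠ 0 := div_ne_zero hc hn
      have hm : Units.mk0 _ hu ∈ posU 𝕜 := by
        show ‖c / algebraMap ℝ 𝕜 ‖c‖‖ = 1
        rw [norm_div, norm_algebraMap', norm_norm, div_self (norm_ne_zero_iff.2 hc)]
      have h4 := h2 (1, ⟨_, hm⟩) (‖c‖ • x)
      have h5 : N (‖c‖ • x) = ‖c‖ * N x := by rw [map_smul_eq_mul, norm_norm]
      rw [← h5, ← h4, hσ, hsm]
      congr 1
      simp only [map_one, LinearIsometryEquiv.coe_one, id, Units.val_mk0, smul_smul]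
      rw [div_mul_cancel₀ _ hn]
  refine ⟨Seminorm.of N (map_add_le_add N) hs, h1, fun g z => ?_, h3⟩
  have h4 := h2 (g, 1) z
  rw [hσ] at h4
  show N (ρ g z) = N z
  simpa using h4

end Pool.Agent.Lib.MP_95bae3_an.FC
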