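import Pool.Agent.Lib.MP_95bae3_an.FC.Defs

set_option autoImplicit false

open Pointwise

namespace Pool.Agent.Lib.MP_95bae3_an.FC

variable {G : Type} [Group G]

lemma words_mem2 {a : ℕ → G} {k : ℕ} {s1 s2 : G} (h1 : s1 ∈ W a k) (h2 : s2 ∈ W a k) :
    s1 * s2 ∈ W a k ^ 5 := by
  simpa using mem5 h1 h2 (W_one a k) (W_one a k) (W_one a k)

lemma words_mem3 {a : ℕ → G} {k : ℕ} {s1 s2 s3 : G} (h1 : s1 ∈ W a k) (h2 : s2 ∈ W a k)
    (h3 : s3 ∈ W a k) : s1 * s2 * s3 ∈ W a k ^ 5 := by
  simpa using mem5 h1 h2 h3 (W_one a k) (W_one a k)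

lemma words_low_zero {y : List ℕ} (h : Low 0 y) : y = [] :=
  List.eq_nil_iff_forall_not_mem.2 fun i hi => absurd (h.2 i hi) (Nat.not_lt_zero i)

lemma words_not_mem {a : ℕ → G} (L : Letters a) (k : ℕ) :
    ∀ y : List ℕ, Low k y → y ≠ [] → pw a y ∉ fc G := by
  induction k with
  | zero => exact fun y hy h0 => absurd (words_low_zero hy) h0
  | succ k ih =>
    intro y hy h0 hm
    by_cases hk : k ∈ y
    · obtain ⟨p, q, rfl, hp, hq, -⟩ := hy.split hk
      refine L.lin k _ (words_mem2 (W_inv hp) (W_inv hq)) ?_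
      have h1 := fc_conj ((fc G).inv_mem hm) (pw a q)
      convert h1 using 1
      simp only [pw_append, pw_cons]
      group
    · exact ih y (hy.drop hk) h0 hm

theorem word_not_mem {a : ℕ → G} (L : Letters a) {y : List ℕ} (hy : y.Nodup) (h0 : y ≠ []) :
    pw a y ∉ fc G := by
  obtain ⟨k, hk⟩ := exists_low hy
  exact words_not_mem L k y (hk k le_rfl) h0

theorem two_letters {a : ℕ → G} (L : Letters a) {i j : ℕ} (h : i ≠ j) :
    (a i)⁻¹ * a j ∉ fc G := by
  have key : ∀ i j : ℕ, j < i → (a i)⁻¹ * a j ∉ fc G := fun i j hij => by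
    simpa using L.lin i _ (words_mem2 (W_let a hij) (W_one a i))
  rcases lt_or_gt_of_ne h with h | h
  · intro hm
    refine key j i h ?_
    simpa using (fc G).inv_mem hm
  · exact key i j h

lemma words_one_side {a : ℕ → G} (L : Letters a) {k : ℕ} {y y' : List ℕ} (hy : Low (k + 1) y)
    (hk : k ∈ y) (hy' : Low k y') : pw a y ≠ pw a y' := by
  intro h
  obtain ⟨p, q, rfl, hp, hq, -⟩ := hy.split hk
  refine L.lin k _ (words_mem3 (W_inv hp) (W_pw hy') (W_inv hq)) ?_
  rw [← h]
  convert (fc G).one_mem using 1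
  simp only [pw_append, pw_cons]
  group

lemma words_inj {a : ℕ → G} (L : Letters a) (k : ℕ) :
    ∀ y y' : List ℕ, Low k y → Low k y' → pw a y = pw a y' → y = y' := by
  induction k with
  | zero => exact fun y y' hy hy' _ => by rw [words_low_zero hy, words_low_zero hy']
  | succ k ih =>
    intro y y' hy hy' h
    by_cases hk : k ∈ y
    · by_cases hk' : k ∈ y'
      · obtain ⟨p, q, rfl, hp, hq, hpq⟩ := hy.split hk
        obtain ⟨p', q', rfl, hp', hq', hpq'⟩ := hy'.split hk'
        simp only [pw_append, pw_cons] at h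
        have e1 : a k * (pw a q * (pw a q')⁻¹) * (a k)⁻¹ = (pw a p)⁻¹ * pw a p' := by
          calc _ = (pw a p)⁻¹ * (pw a p * (a k * pw a q)) * (pw a q')⁻¹ * (a k)⁻¹ := by group
            _ = _ := by rw [h]; group
        obtain ⟨hw, hc⟩ := L.cj k _ (words_mem2 (W_pw hq) (W_inv hq')) _
          (words_mem2 (W_inv hp) (W_pw hp')) e1
        have e2 : pw a (p ++ q) = pw a (p' ++ q') := by
          simp only [pw_append]
          calc _ = pw a p * (pw a q * (pw a q')⁻¹) * pw a q' := by group
            _ = _ := by rw [← hc]; group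
        have e3 := ih _ _ hpq hpq' e2
        rcases List.append_eq_append_iff.1 e3 with ⟨s, rfl, rfl⟩ | ⟨s, rfl, rfl⟩
        · have hs : s = [] := by
            by_contra h0
            refine word_not_mem L hq.1.of_append_left h0 ?_
            simpa using hw
          subst hs
          simp
        · have hs : s = [] := by
            by_contra h0
            refine word_not_mem L hq'.1.of_append_left h0 ?_
            simpa using hw
          subst hs
          simp
      · exact absurd h (words_one_side L hy hk (hy'.drop hk'))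
    · by_cases hk' : k ∈ y'
      · exact absurd h.symm (words_one_side L hy' hk' (hy.drop hk))
      · exact ih y y' (hy.drop hk) (hy'.drop hk') h

theorem word_inj {a : ℕ → G} (L : Letters a) {y y' : List ℕ} (hy : y.Nodup) (hy' : y'.Nodup)
    (h : pw a y = pw a y') : y = y' := by
  obtain ⟨k, hk⟩ := exists_low hy
  obtain ⟨k', hk'⟩ := exists_low hy'
  exact words_inj L (max k k') y y' (hk _ (le_max_left _ _)) (hk' _ (le_max_right _ _)) h

end Pool.Agent.Lib.MP_95bae3_an.FC
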